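import Mathlib

/-!
Explicit derivatives of the model function in log-polar coordinates.
-/

set_option autoImplicit false

namespace Pool.Agent.H99.Loewner

open Complex Set Filter Topology Metric

/-- `exp (4 s)` -/
noncomputable def ex (s : ℝ) : ℂ := ((Real.exp (4 * s) : ℝ) : ℂ)
/-- cosine as a complex number -/
noncomputable def cs (θ : ℝ) : ℂ := ((Real.cos θ : ℝ) : ℂ)
/-- sine as a complex number -/
noncomputable def sn (θ : ℝ) : ℂ := ((Real.sin θ : ℝ) : ℂ)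

/-- the linear denominator -/
noncomputable def ell (p : ℂ) (s θ : ℝ) : ℂ := sn θ - p * ex s * cs θ

theorem hd_ex (s : ℝ) : HasDerivAt ex (4 * ex s) s := by
  have h1 : HasDerivAt (fun s : ℝ => Real.exp (4 * s)) (Real.exp (4 * s) * 4) s := by
    have : HasDerivAt (fun s : ℝ => 4 * s) 4 s := by
      simpa using (hasDerivAt_id s).const_mul (4 : ℝ)
    exact this.exp
  have h2 := h1.ofReal_comp
  have e : ((Real.exp (4 * s) * 4 : ℝ) : ℂ) = 4 * ex s := by
    rw [ex]; push_cast; ring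
  rw [e] at h2
  exact h2

theorem hd_cs (θ : ℝ) : HasDerivAt cs (-sn θ) θ := by
  have h2 := (Real.hasDerivAt_cos θ).ofReal_comp
  have e : ((-Real.sin θ : ℝ) : ℂ) = -sn θ := by rw [sn]; push_cast; ring
  rw [e] at h2
  exact h2

theorem hd_sn (θ : ℝ) : HasDerivAt sn (cs θ) θ := (Real.hasDerivAt_sin θ).ofReal_comp

theorem cs_sq_add (θ : ℝ) : cs θ ^ 2 + sn θ ^ 2 = 1 := by
  rw [cs, sn]
  exact_mod_cast Real.cos_sq_add_sin_sq θ

theorem ell_ne {p : ℂ} (hp : p.im ≠ 0) (s θ : ℝ) : ell p s θ ≠ 0 := by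
  intro h
  have h1 : (ell p s θ).im = 0 := by rw [h]; simp
  have h2 : (ell p s θ).re = 0 := by rw [h]; simp
  rw [ell, sn, cs, ex] at h1 h2
  simp only [sub_im, ofReal_im, zero_sub, mul_im, mul_re, ofReal_re, mul_zero, sub_zero,
    zero_add, neg_eq_zero, mul_eq_zero, sub_re] at h1 h2
  have h3 : Real.cos θ = 0 := by
    rcases h1 with (h1 | h1) | h1
    · exact absurd h1 hp
    · exact absurd h1 (Real.exp_ne_zero _)
    · exact h1
  rw [h3, mul_zero, sub_zero] at h2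
  have := Real.cos_sq_add_sin_sq θ
  rw [h2, h3] at this
  norm_num at this

theorem hd_ell_s (p : ℂ) (s θ : ℝ) :
    HasDerivAt (fun s => ell p s θ) (-(4 * p * ex s * cs θ)) s := by
  have h := (((hd_ex s).const_mul p).mul_const (cs θ)).const_sub (sn θ)
  have e : -(p * (4 * ex s) * cs θ) = -(4 * p * ex s * cs θ) := by ring
  rw [e] at h
  exact h

theorem hd_ell_t (p : ℂ) (s θ : ℝ) :
    HasDerivAt (fun θ => ell p s θ) (cs θ + p * ex s * sn θ) θ := by
  have h := (hd_sn θ).sub ((hd_cs θ).const_mul (p * ex s))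
  have e : cs θ - p * ex s * -sn θ = cs θ + p * ex s * sn θ := by ring
  rw [e] at h
  exact h

/-- `h = ε² cos θ / ℓ` -/
noncomputable def h0 (p : ℂ) (s θ : ℝ) : ℂ := ex s ^ 2 * cs θ / ell p s θ
noncomputable def ht (p : ℂ) (s θ : ℝ) : ℂ := -(ex s ^ 2 / ell p s θ ^ 2)
noncomputable def htt (p : ℂ) (s θ : ℝ) : ℂ :=
  2 * ex s ^ 2 * (cs θ + p * ex s * sn θ) / ell p s θ ^ 3
noncomputable def hs (p : ℂ) (s θ : ℝ) : ℂ :=
  8 * ex s ^ 2 * cs θ / ell p s θ + 4 * p * ex s ^ 3 * cs θ ^ 2 / ell p s θ ^ 2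
noncomputable def hss (p : ℂ) (s θ : ℝ) : ℂ :=
  64 * ex s ^ 2 * cs θ / ell p s θ + 80 * p * ex s ^ 3 * cs θ ^ 2 / ell p s θ ^ 2
    + 32 * p ^ 2 * ex s ^ 4 * cs θ ^ 3 / ell p s θ ^ 3
noncomputable def hst (p : ℂ) (s θ : ℝ) : ℂ :=
  -(8 * ex s ^ 2 / ell p s θ ^ 2) - 8 * p * ex s ^ 3 * cs θ / ell p s θ ^ 3

section
variable {p : ℂ} (hp : p.im ≠ 0) (s θ : ℝ)
include hp

theorem hd_h0_t : HasDerivAt (fun θ => h0 p s θ) (ht p s θ) θ := by
  have hne := ell_ne hp s θ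
  have h := ((hd_cs θ).const_mul (ex s ^ 2)).div (hd_ell_t p s θ) hne
  have e : (ex s ^ 2 * -sn θ * ell p s θ - ex s ^ 2 * cs θ * (cs θ + p * ex s * sn θ)) /
      ell p s θ ^ 2 = ht p s θ := by
    rw [ht, ← neg_div]
    congr 1
    rw [ell]
    linear_combination (-ex s ^ 2) * cs_sq_add θ
  rw [e] at h
  exact h

theorem hd_ht_t : HasDerivAt (fun θ => ht p s θ) (htt p s θ) θ := by
  have hne := ell_ne hp s θ
  have h := ((hasDerivAt_const θ (ex s ^ 2)).div ((hd_ell_t p s θ).pow 2) (pow_ne_zero 2 hne)).neg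
  refine h.congr_deriv ?_
  rw [htt]
  simp only [Nat.add_one_sub_one, pow_one, Nat.cast_ofNat, zero_mul, Pi.pow_apply]
  field_simp
  ring

theorem hd_h0_s : HasDerivAt (fun s => h0 p s θ) (hs p s θ) s := by
  have hne := ell_ne hp s θ
  have h := (((hd_ex s).pow 2).mul_const (cs θ)).div (hd_ell_s p s θ) hne
  refine h.congr_deriv ?_
  rw [hs]
  simp only [Nat.add_one_sub_one, pow_one, Nat.cast_ofNat, Pi.pow_apply]
  field_simp
  ring

theorem hd_hs_s : HasDerivAt (fun s => hs p s θ) (hss p s θ) s := by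
  have hne := ell_ne hp s θ
  have h := (((((hd_ex s).pow 2).const_mul 8).mul_const (cs θ)).div (hd_ell_s p s θ) hne).add
    (((((hd_ex s).pow 3).const_mul (4 * p)).mul_const (cs θ ^ 2)).div ((hd_ell_s p s θ).pow 2)
      (pow_ne_zero 2 hne))
  refine h.congr_deriv ?_
  rw [hss]
  simp only [Nat.add_one_sub_one, pow_one, Nat.cast_ofNat, Pi.pow_apply]
  field_simp
  ring

theorem hd_ht_s : HasDerivAt (fun s => ht p s θ) (hst p s θ) s := by
  have hne := ell_ne hp s θ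
  have h := (((hd_ex s).pow 2).div ((hd_ell_s p s θ).pow 2) (pow_ne_zero 2 hne)).neg
  refine h.congr_deriv ?_
  rw [hst]
  simp only [Nat.add_one_sub_one, pow_one, Nat.cast_ofNat, Pi.pow_apply]
  field_simp
  ring
end

/-- the data of the construction -/
structure Data where
  γ : ℂ
  p1 : ℂ
  p2 : ℂ
  A1 : ℂ
  A2 : ℂ
  h1 : p1.im ≠ 0
  h2 : p2.im ≠ 0

variable (D : Data)

/-- combination of the two pole terms -/
noncomputable def cmb (D : Data) (f : ℂ → ℝ → ℝ → ℂ) (s θ : ℝ) : ℂ :=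
  D.A1 * f D.p1 s θ + D.A2 * f D.p2 s θ

theorem cmb_t {f g : ℂ → ℝ → ℝ → ℂ}
    (h : ∀ p : ℂ, p.im ≠ 0 → ∀ s θ, HasDerivAt (fun θ => f p s θ) (g p s θ) θ) (s θ : ℝ) :
    HasDerivAt (fun θ => cmb D f s θ) (cmb D g s θ) θ :=
  ((h _ D.h1 s θ).const_mul _).add ((h _ D.h2 s θ).const_mul _)

theorem cmb_s {f g : ℂ → ℝ → ℝ → ℂ}
    (h : ∀ p : ℂ, p.im ≠ 0 → ∀ s θ, HasDerivAt (fun s => f p s θ) (g p s θ) s) (s θ : ℝ) :
    HasDerivAt (fun s => cmb D f s θ) (cmb D g s θ) s :=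
  ((h _ D.h1 s θ).const_mul _).add ((h _ D.h2 s θ).const_mul _)

/-- `κ = γ exp (-2 s)` -/
noncomputable def kap (D : Data) (s : ℝ) : ℂ := D.γ * ((Real.exp (-2 * s) : ℝ) : ℂ)

theorem hd_kap (s : ℝ) : HasDerivAt (kap D) (-2 * kap D s) s := by
  have h1 : HasDerivAt (fun s : ℝ => Real.exp (-2 * s)) (Real.exp (-2 * s) * (-2)) s := by
    have : HasDerivAt (fun s : ℝ => -2 * s) (-2) s := by
      simpa using (hasDerivAt_id s).const_mul (-2 : ℝ)
    exact this.exp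
  have h2 := h1.ofReal_comp.const_mul D.γ
  refine h2.congr_deriv ?_
  rw [kap]; push_cast; ring

/-- the factor `exp (s - i θ - κ / 2)` -/
noncomputable def MM (D : Data) (s θ : ℝ) : ℂ := exp ((s : ℂ) - (θ : ℂ) * I - kap D s / 2)

theorem hd_MM_s (s θ : ℝ) : HasDerivAt (fun s => MM D s θ) (MM D s θ * (1 + kap D s)) s := by
  have h1 : HasDerivAt (fun s : ℝ => (s : ℂ) - (θ : ℂ) * I - kap D s / 2)
      (1 - (-2 * kap D s) / 2) s := by
    have h0 : HasDerivAt (fun s : ℝ => (s : ℂ)) 1 s := by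
      have := (hasDerivAt_id s).ofReal_comp
      rw [Complex.ofReal_one] at this
      exact this
    exact (h0.sub_const _).sub ((hd_kap D s).div_const 2)
  refine h1.cexp.congr_deriv ?_
  rw [MM]; ring

theorem hd_MM_t (s θ : ℝ) : HasDerivAt (fun θ => MM D s θ) (MM D s θ * (-I)) θ := by
  have h1 : HasDerivAt (fun θ : ℝ => (s : ℂ) - (θ : ℂ) * I - kap D s / 2) (-I) θ := by
    have h0 : HasDerivAt (fun s : ℝ => (s : ℂ)) 1 θ := by
      have := (hasDerivAt_id θ).ofReal_comp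
      rw [Complex.ofReal_one] at this
      exact this
    have := ((h0.mul_const I).const_sub (s : ℂ)).sub_const (kap D s / 2)
    refine this.congr_deriv ?_
    ring
  exact h1.cexp

/-- `F` in log-polar coordinates and its derivatives -/
noncomputable def g0 (D : Data) (s θ : ℝ) : ℂ := MM D s θ * (1 + cmb D h0 s θ)
noncomputable def gs (D : Data) (s θ : ℝ) : ℂ :=
  MM D s θ * ((1 + kap D s) * (1 + cmb D h0 s θ) + cmb D hs s θ)
noncomputable def gt (D : Data) (s θ : ℝ) : ℂ :=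
  MM D s θ * (-I * (1 + cmb D h0 s θ) + cmb D ht s θ)
noncomputable def gss (D : Data) (s θ : ℝ) : ℂ :=
  MM D s θ * (((1 + kap D s) ^ 2 - 2 * kap D s) * (1 + cmb D h0 s θ)
    + 2 * (1 + kap D s) * cmb D hs s θ + cmb D hss s θ)
noncomputable def gtt (D : Data) (s θ : ℝ) : ℂ :=
  MM D s θ * (-(1 + cmb D h0 s θ) - 2 * I * cmb D ht s θ + cmb D htt s θ)
noncomputable def gst (D : Data) (s θ : ℝ) : ℂ :=
  MM D s θ * ((1 + kap D s) * (-I * (1 + cmb D h0 s θ) + cmb D ht s θ)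
    - I * cmb D hs s θ + cmb D hst s θ)

theorem hd_g0_s (s θ : ℝ) : HasDerivAt (fun s => g0 D s θ) (gs D s θ) s := by
  have h := (hd_MM_s D s θ).mul ((cmb_s D (fun p hp s θ => hd_h0_s hp s θ) s θ).const_add 1)
  refine h.congr_deriv ?_
  rw [gs]; ring

theorem hd_g0_t (s θ : ℝ) : HasDerivAt (fun θ => g0 D s θ) (gt D s θ) θ := by
  have h := (hd_MM_t D s θ).mul ((cmb_t D (fun p hp s θ => hd_h0_t hp s θ) s θ).const_add 1)
  refine h.congr_deriv ?_
  rw [gt]; ring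

theorem hd_gs_s (s θ : ℝ) : HasDerivAt (fun s => gs D s θ) (gss D s θ) s := by
  have h := (hd_MM_s D s θ).mul ((((hd_kap D s).const_add 1).mul
    ((cmb_s D (fun p hp s θ => hd_h0_s hp s θ) s θ).const_add 1)).add
      (cmb_s D (fun p hp s θ => hd_hs_s hp s θ) s θ))
  refine h.congr_deriv ?_
  rw [gss]; simp only [Pi.add_apply, Pi.mul_apply]; ring

theorem hd_gt_t (s θ : ℝ) : HasDerivAt (fun θ => gt D s θ) (gtt D s θ) θ := by
  have h := (hd_MM_t D s θ).mul ((((cmb_t D (fun p hp s θ => hd_h0_t hp s θ) s θ).const_add 1).const_mul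
    (-I)).add (cmb_t D (fun p hp s θ => hd_ht_t hp s θ) s θ))
  refine h.congr_deriv ?_
  rw [gtt]
  simp only [Pi.add_apply]
  linear_combination (MM D s θ * (1 + cmb D h0 s θ)) * I_mul_I

theorem hd_gt_s (s θ : ℝ) : HasDerivAt (fun s => gt D s θ) (gst D s θ) s := by
  have h := (hd_MM_s D s θ).mul ((((cmb_s D (fun p hp s θ => hd_h0_s hp s θ) s θ).const_add 1).const_mul
    (-I)).add (cmb_s D (fun p hp s θ => hd_ht_s hp s θ) s θ))
  refine h.congr_deriv ?_
  rw [gst]; simp only [Pi.add_apply]; ring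

/-- the normalised `X` -/
noncomputable def XX (D : Data) (s θ : ℝ) : ℂ :=
  (kap D s ^ 2 - 2 * kap D s) * (1 + cmb D h0 s θ) + 2 * kap D s * cmb D hs s θ + cmb D hss s θ
    + 2 * I * cmb D ht s θ - cmb D htt s θ
/-- the normalised `Y` -/
noncomputable def YY (D : Data) (s θ : ℝ) : ℂ :=
  kap D s * (-I * (1 + cmb D h0 s θ) + cmb D ht s θ) - I * cmb D hs s θ + cmb D hst s θ

theorem X_eq (s θ : ℝ) : gss D s θ - 2 * gs D s θ - gtt D s θ = MM D s θ * XX D s θ := by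
  rw [gss, gs, gtt, XX]; ring

theorem Y_eq (s θ : ℝ) : 2 * (gst D s θ - gt D s θ) = 2 * (MM D s θ * YY D s θ) := by
  rw [gst, gt, YY]; ring

end Pool.Agent.H99.Loewner
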