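import Mathlib

/-!
The two polynomial inequalities behind the construction, with explicit sum of squares
certificates.
-/

set_option autoImplicit false

namespace Pool.Agent.H99.Loewner

open Complex

/-- real part of the numerator of `X` -/
def xr (t : ℝ) : ℝ := 61284 - 756 * t - 47736 * t ^ 2 + 55952 * t ^ 3 - 15072 * t ^ 4
  + 26880 * t ^ 5 - 7680 * t ^ 6
/-- imaginary part of the numerator of `X` -/
def xi (t : ℝ) : ℝ := 123963 + 91278 * t - 168588 * t ^ 2 + 49096 * t ^ 3 - 17856 * t ^ 4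
  + 22656 * t ^ 5 + 4096 * t ^ 6
/-- real part of the numerator of `Y` -/
def zr (t : ℝ) : ℝ := 2565 + 3570 * t + 11916 * t ^ 2 + 6072 * t ^ 3 - 1856 * t ^ 4
  + 4992 * t ^ 5 - 2048 * t ^ 6
/-- imaginary part of the numerator of `Y` -/
def zi (t : ℝ) : ℝ := 9036 + 14076 * t + 12168 * t ^ 2 + 18576 * t ^ 3 - 2528 * t ^ 4
  + 6912 * t ^ 5 + 512 * t ^ 6

theorem poly_ineq (t : ℝ) :
    (64 / 200) * (16 * t ^ 2 + 9) ^ 3 * (4 * t ^ 2 - 4 * t + 17) ^ 3 <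
      xr t * zi t - xi t * zr t := by
  have h : xr t * zi t - xi t * zr t -
      (64 / 200) * (16 * t ^ 2 + 9) ^ 3 * (4 * t ^ 2 - 4 * t + 17) ^ 3 =
      ((-15285) + (-4544)*t + (69161)*t^2 + (22580)*t^3 + (-41170)*t^4 + (-3374)*t^5
        + (1944)*t^6)^2 + ((-650) + (-31545)*t + (-16131)*t^2 + (73623)*t^3 + (15672)*t^4
        + (-14109)*t^5)^2 + (210288/25)*(1 + t)^2 + (748553/25)*(t - t^2)^2
        + (367353/25)*(t^2 + t^3)^2 + (64079/25)*(t^3 + t^4)^2 + (20564/5)*(t^4 - t^5)^2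
        + (5328/25)*(t^5 + t^6)^2 + (14722196/25) + (88465944/25)*(t^1)^2
        + (219643454/25)*(t^2)^2 + (59522933/5)*(t^3)^2 + (44284643/5)*(t^4)^2
        + (89529639/25)*(t^5)^2 + (2966064/5)*(t^6)^2 := by
    unfold xr xi zr zi
    ring
  have h2 : 0 < xr t * zi t - xi t * zr t -
      (64 / 200) * (16 * t ^ 2 + 9) ^ 3 * (4 * t ^ 2 - 4 * t + 17) ^ 3 := by
    rw [h]
    positivity
  linarith

/-- `4 t + 3 i` -/
noncomputable def d1 (t : ℝ) : ℂ := ⟨4 * t, 3⟩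
/-- `2 t - 1 - 4 i` -/
noncomputable def d2 (t : ℝ) : ℂ := ⟨2 * t - 1, -4⟩

theorem d1_ne (t : ℝ) : d1 t ≠ 0 := by
  intro h
  have := congrArg Complex.im h
  simp [d1] at this

theorem d2_ne (t : ℝ) : d2 t ≠ 0 := by
  intro h
  have := congrArg Complex.im h
  simp [d2] at this

theorem d1_sq (t : ℝ) : d1 t ^ 2 = ⟨16 * t ^ 2 - 9, 24 * t⟩ := by
  rw [pow_two, d1]
  apply Complex.ext <;> simp <;> ring

theorem d2_sq (t : ℝ) : d2 t ^ 2 = ⟨4 * t ^ 2 - 4 * t - 15, 8 - 16 * t⟩ := by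
  rw [pow_two, d2]
  apply Complex.ext <;> simp <;> ring

theorem d1_cb (t : ℝ) : d1 t ^ 3 = ⟨64 * t ^ 3 - 108 * t, 144 * t ^ 2 - 27⟩ := by
  rw [pow_succ, d1_sq, d1]
  apply Complex.ext <;> simp <;> ring

theorem d2_cb (t : ℝ) : d2 t ^ 3 =
    ⟨8 * t ^ 3 - 12 * t ^ 2 - 90 * t + 47, -48 * t ^ 2 + 48 * t + 52⟩ := by
  rw [pow_succ, d2_sq, d2]
  apply Complex.ext <;> simp <;> ring

/-- the numerator of `X` -/
theorem PX_eq (t : ℝ) : (-15 + 8 * I) * (d1 t ^ 3 * d2 t ^ 3) + 1536 * d2 t ^ 3 - 512 * d1 t ^ 3 =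
    ⟨xr t, xi t⟩ := by
  rw [d1_cb, d2_cb, xr, xi]
  apply Complex.ext <;> simp <;> ring

/-- the numerator of `W` -/
noncomputable def PW (t : ℝ) : ℂ := I * (d1 t ^ 2 * d2 t ^ 2) - 12 * d2 t ^ 2 + 8 * d1 t ^ 2

theorem PW_eq (t : ℝ) : PW t = ⟨180 + 264 * t + 48 * t ^ 2 + 160 * t ^ 3,
    39 + 228 * t + 108 * t ^ 2 - 64 * t ^ 3 + 64 * t ^ 4⟩ := by
  rw [PW, d1_sq, d2_sq]
  apply Complex.ext <;> simp <;> ring

theorem PZ_eq (t : ℝ) : (1 + 4 * I) * PW t * (d1 t * d2 t) = ⟨zr t, zi t⟩ := by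
  rw [PW_eq, d1, d2, zr, zi]
  apply Complex.ext <;> simp <;> ring

/-- comparison polynomial with explicit roots -/
noncomputable def PH (t : ℝ) : ℂ :=
  I * ((⟨2 * t - 1, 3⟩ * ⟨2 * t - 3, -6⟩) * (⟨4 * t + 2, -3⟩ * ⟨8 * t + 5, -1⟩))

theorem PH_eq (t : ℝ) : PH t = ⟨378 + 602 * t + 156 * t ^ 2 + 304 * t ^ 3,
    96 + 514 * t + 244 * t ^ 2 - 112 * t ^ 3 + 128 * t ^ 4⟩ := by
  rw [PH]
  apply Complex.ext <;> simp <;> ring

theorem PW_PH (t : ℝ) : 0 < (PW t * (starRingEnd ℂ) (PH t)).re := by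
  have h : (PW t * (starRingEnd ℂ) (PH t)).re =
      ((109) + (-305)*t + (-838)*t^2 + (-87)*t^3 + (88)*t^4)^2 + ((244) + (649)*t + (19)*t^2
        + (-473)*t^3)^2 + (68/1)*(1 - t)^2 + (70/1)*(t - t^2)^2 + (119/1)*(t^2 - t^3)^2
        + (24/1)*(t^3 - t^4)^2 + (299/1) + (1276/1)*(t^1)^2 + (2026/1)*(t^2)^2
        + (1295/1)*(t^3)^2 + (424/1)*(t^4)^2 := by
    rw [PW_eq, PH_eq]
    simp
    ring
  rw [h]
  positivity

theorem normSq_d1 (t : ℝ) : normSq (d1 t) = 16 * t ^ 2 + 9 := by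
  rw [d1, normSq_mk]; ring

theorem normSq_d2 (t : ℝ) : normSq (d2 t) = 4 * t ^ 2 - 4 * t + 17 := by
  rw [d2, normSq_mk]; ring

/-- the constant `γ` -/
noncomputable def gam : ℂ := (1 + 4 * I) / 4

theorem gam_sq : gam ^ 2 = (-15 + 8 * I) / 16 := by
  rw [gam]
  linear_combination (1 : ℂ) * I_mul_I

/-- limit of `X` -/
noncomputable def X0 (η1 η2 : ℂ) : ℂ := gam ^ 2 - 2 * (-(3 / 4) * η1 ^ 3 + 2 * η2 ^ 3)
/-- limit of the curve -/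
noncomputable def W0 (η1 η2 : ℂ) : ℂ := I + (-(3 / 4) * η1 ^ 2 + 2 * η2 ^ 2)

theorem main_t (t : ℝ) :
    1 / 200 < (X0 (4 / d1 t) (2 / d2 t) * (starRingEnd ℂ) (-gam * W0 (4 / d1 t) (2 / d2 t))).im := by
  have h1 := d1_ne t
  have h2 := d2_ne t
  have hX : X0 (4 / d1 t) (2 / d2 t) = ⟨xr t, xi t⟩ / (16 * (d1 t ^ 3 * d2 t ^ 3)) := by
    rw [← PX_eq, X0, gam_sq]
    field_simp
    ring
  have hW : -gam * W0 (4 / d1 t) (2 / d2 t) = -(⟨zr t, zi t⟩ / (4 * (d1 t ^ 3 * d2 t ^ 3))) := by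
    rw [← PZ_eq, W0, gam, PW]
    field_simp
    ring
  have hn : (starRingEnd ℂ) (d1 t ^ 3 * d2 t ^ 3) * (d1 t ^ 3 * d2 t ^ 3) =
      (((16 * t ^ 2 + 9) ^ 3 * (4 * t ^ 2 - 4 * t + 17) ^ 3 : ℝ) : ℂ) := by
    rw [← normSq_d1, ← normSq_d2, ← Complex.normSq_eq_conj_mul_self, map_mul, map_pow, map_pow]
  have hpos : 0 < (16 * t ^ 2 + 9) ^ 3 * (4 * t ^ 2 - 4 * t + 17) ^ 3 := by
    rw [← normSq_d1, ← normSq_d2]
    have := normSq_pos.mpr h1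
    have := normSq_pos.mpr h2
    positivity
  have hprod : X0 (4 / d1 t) (2 / d2 t) * (starRingEnd ℂ) (-gam * W0 (4 / d1 t) (2 / d2 t)) =
      (((-1 / (64 * ((16 * t ^ 2 + 9) ^ 3 * (4 * t ^ 2 - 4 * t + 17) ^ 3)) : ℝ)) : ℂ) *
        (⟨xr t, xi t⟩ * ⟨zr t, -zi t⟩) := by
    rw [hX, hW, map_neg, map_div₀]
    have e1 : (starRingEnd ℂ) (⟨zr t, zi t⟩ : ℂ) = ⟨zr t, -zi t⟩ := rfl
    have e2 : (starRingEnd ℂ) (4 * (d1 t ^ 3 * d2 t ^ 3)) =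
        4 * (starRingEnd ℂ) (d1 t ^ 3 * d2 t ^ 3) := by
      rw [map_mul]; congr 1; exact Complex.conj_ofNat 4
    rw [e1, e2, Complex.ofReal_div, Complex.ofReal_mul, ← hn]
    have h3 : d1 t ^ 3 * d2 t ^ 3 ≠ 0 := by positivity
    have h4 : (starRingEnd ℂ) (d1 t ^ 3 * d2 t ^ 3) ≠ 0 := by
      rw [map_ne_zero]; exact h3
    generalize (starRingEnd ℂ) (d1 t ^ 3 * d2 t ^ 3) = cc at *
    generalize d1 t ^ 3 * d2 t ^ 3 = dd at *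
    push_cast
    field_simp
    ring
  rw [hprod, Complex.im_ofReal_mul]
  have hp := poly_ineq t
  have e5 : ((⟨xr t, xi t⟩ : ℂ) * ⟨zr t, -zi t⟩).im = -(xr t * zi t - xi t * zr t) := by
    simp
    ring
  rw [e5]
  generalize xr t * zi t - xi t * zr t = NN at *
  have e6 : -1 / (64 * ((16 * t ^ 2 + 9) ^ 3 * (4 * t ^ 2 - 4 * t + 17) ^ 3)) * -NN =
      NN / (64 * ((16 * t ^ 2 + 9) ^ 3 * (4 * t ^ 2 - 4 * t + 17) ^ 3)) := by ring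
  rw [e6, lt_div_iff₀ (by positivity)]
  linarith

end Pool.Agent.H99.Loewner
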