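import Mathlib
import Pool.Agent.H99.Loewner.Calc
import Pool.Agent.H99.Loewner.Numeric

/-!
The normalised `X` and `Y` are small perturbations of their limits.
-/

set_option autoImplicit false

namespace Pool.Agent.H99.Loewner

open Complex Set Filter Topology Metric

/-- `exp (2 s)` -/
noncomputable def rr (s : ℝ) : ℂ := ((Real.exp (2 * s) : ℝ) : ℂ)

theorem ex_eq (s : ℝ) : ex s = rr s ^ 2 := by
  rw [ex, rr, ← Complex.ofReal_pow, ← Real.exp_nat_mul]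
  congr 2
  push_cast
  ring

theorem kap_mul (D : Data) (s : ℝ) : kap D s * rr s = D.γ := by
  rw [kap, rr, mul_assoc, ← Complex.ofReal_mul, ← Real.exp_add]
  have : -2 * s + 2 * s = 0 := by ring
  rw [this, Real.exp_zero, Complex.ofReal_one, mul_one]

noncomputable def aa (p : ℂ) (s θ : ℝ) : ℂ := ex s / ell p s θ
noncomputable def bb (p : ℂ) (s θ : ℝ) : ℂ := sn θ / ell p s θ
noncomputable def ee (p : ℂ) (s θ : ℝ) : ℂ := cs θ * (ex s / ell p s θ)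

theorem aa_sq (p : ℂ) (s θ : ℝ) : aa p s θ ^ 2 = ee p s θ ^ 2 + ex s ^ 2 * bb p s θ ^ 2 := by
  rw [aa, bb, ee]
  linear_combination (-(ex s / ell p s θ) ^ 2) * cs_sq_add θ

theorem h0_eq (p : ℂ) (s θ : ℝ) : h0 p s θ = ex s * ee p s θ := by
  rw [h0, ee]; ring

theorem hs_eq (p : ℂ) (s θ : ℝ) : hs p s θ = ex s * (8 * ee p s θ + 4 * p * ee p s θ ^ 2) := by
  rw [hs, ee]; ring

theorem hss_eq (p : ℂ) (s θ : ℝ) : hss p s θ =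
    ex s * (64 * ee p s θ + 80 * p * ee p s θ ^ 2 + 32 * p ^ 2 * ee p s θ ^ 3) := by
  rw [hss, ee]; ring

theorem ht_eq (p : ℂ) (s θ : ℝ) : ht p s θ = -aa p s θ ^ 2 := by
  rw [ht, aa]; ring

theorem hst_eq (p : ℂ) (s θ : ℝ) : hst p s θ =
    -(8 * aa p s θ ^ 2) - 8 * p * aa p s θ ^ 2 * ee p s θ := by
  rw [hst, ee, aa]; ring

theorem htt_eq (p : ℂ) (s θ : ℝ) : ex s * htt p s θ =
    2 * aa p s θ ^ 2 * ee p s θ + 2 * p * ex s ^ 2 * aa p s θ ^ 2 * bb p s θ := by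
  rw [htt, ee, aa, bb]; ring

/-- limit of `X` -/
noncomputable def XL (D : Data) (η1 η2 : ℂ) : ℂ := D.γ ^ 2 - 2 * (D.A1 * η1 ^ 3 + D.A2 * η2 ^ 3)
/-- limit of `Y` -/
noncomputable def YL (D : Data) (η1 η2 : ℂ) : ℂ := -D.γ * (I + (D.A1 * η1 ^ 2 + D.A2 * η2 ^ 2))

/-- remainder of `X` -/
noncomputable def RX (D : Data) (w : ℂ × ℂ × ℂ × ℂ × ℂ × ℂ × ℂ) : ℂ :=
  let ρ := w.1
  let a1 := w.2.1
  let b1 := w.2.2.1
  let η1 := w.2.2.2.1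
  let a2 := w.2.2.2.2.1
  let b2 := w.2.2.2.2.2.1
  let η2 := w.2.2.2.2.2.2
  D.γ ^ 2 * ρ * (D.A1 * η1 + D.A2 * η2) - 2 * D.γ * (1 + ρ ^ 2 * (D.A1 * η1 + D.A2 * η2))
  + 2 * D.γ * ρ ^ 2 * (D.A1 * (8 * η1 + 4 * D.p1 * η1 ^ 2) + D.A2 * (8 * η2 + 4 * D.p2 * η2 ^ 2))
  + ρ ^ 3 * (D.A1 * (64 * η1 + 80 * D.p1 * η1 ^ 2 + 32 * D.p1 ^ 2 * η1 ^ 3)
    + D.A2 * (64 * η2 + 80 * D.p2 * η2 ^ 2 + 32 * D.p2 ^ 2 * η2 ^ 3))
  - 2 * I * ρ * (D.A1 * a1 ^ 2 + D.A2 * a2 ^ 2)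
  - ρ ^ 3 * (D.A1 * (2 * b1 ^ 2 * η1 + 2 * D.p1 * a1 ^ 2 * b1)
    + D.A2 * (2 * b2 ^ 2 * η2 + 2 * D.p2 * a2 ^ 2 * b2))

/-- remainder of `Y` -/
noncomputable def RY (D : Data) (w : ℂ × ℂ × ℂ × ℂ × ℂ × ℂ × ℂ) : ℂ :=
  let ρ := w.1
  let a1 := w.2.1
  let b1 := w.2.2.1
  let η1 := w.2.2.2.1
  let a2 := w.2.2.2.2.1
  let b2 := w.2.2.2.2.2.1
  let η2 := w.2.2.2.2.2.2
  0 - I * D.γ * ρ * (D.A1 * η1 + D.A2 * η2) - D.γ * ρ ^ 3 * (D.A1 * b1 ^ 2 + D.A2 * b2 ^ 2)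
  - I * ρ ^ 2 * (D.A1 * (8 * η1 + 4 * D.p1 * η1 ^ 2) + D.A2 * (8 * η2 + 4 * D.p2 * η2 ^ 2))
  - (D.A1 * (8 * a1 ^ 2 + 8 * D.p1 * a1 ^ 2 * η1) + D.A2 * (8 * a2 ^ 2 + 8 * D.p2 * a2 ^ 2 * η2))

/-- the bounded variables -/
noncomputable def vars (D : Data) (s θ : ℝ) : ℂ × ℂ × ℂ × ℂ × ℂ × ℂ × ℂ :=
  (rr s, aa D.p1 s θ, bb D.p1 s θ, ee D.p1 s θ, aa D.p2 s θ, bb D.p2 s θ, ee D.p2 s θ)

theorem XX_eq (D : Data) (s θ : ℝ) : rr s ^ 2 * XX D s θ =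
    XL D (ee D.p1 s θ) (ee D.p2 s θ) + rr s * RX D (vars D s θ) := by
  have hk := kap_mul D s
  have h1 : ex s = rr s ^ 2 := ex_eq s
  have t1 := htt_eq D.p1 s θ
  have t2 := htt_eq D.p2 s θ
  have a1 := aa_sq D.p1 s θ
  have a2 := aa_sq D.p2 s θ
  rw [XX, XL, RX, vars]
  simp only [cmb]
  rw [h0_eq, h0_eq, hs_eq, hs_eq, hss_eq, hss_eq, ht_eq, ht_eq]
  rw [h1] at t1 t2 a1 a2 ⊢
  rw [← hk]
  linear_combination (-D.A1) * t1 - D.A2 * t2 - 2 * D.A1 * ee D.p1 s θ * a1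
    - 2 * D.A2 * ee D.p2 s θ * a2

theorem YY_eq (D : Data) (s θ : ℝ) : rr s * YY D s θ =
    YL D (ee D.p1 s θ) (ee D.p2 s θ) + rr s * RY D (vars D s θ) := by
  have hk := kap_mul D s
  have h1 : ex s = rr s ^ 2 := ex_eq s
  have a1 := aa_sq D.p1 s θ
  have a2 := aa_sq D.p2 s θ
  rw [YY, YL, RY, vars]
  simp only [cmb]
  rw [h0_eq, h0_eq, hs_eq, hs_eq, hst_eq, hst_eq, ht_eq, ht_eq]
  rw [h1] at a1 a2 ⊢
  rw [← hk]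
  linear_combination (-(kap D s * rr s) * D.A1) * a1 - (kap D s * rr s) * D.A2 * a2

/-! ### bounds -/

theorem norm_cs_le (θ : ℝ) : ‖cs θ‖ ≤ 1 := by
  rw [cs, Complex.norm_real]; exact Real.abs_cos_le_one θ

theorem norm_rr_le {s : ℝ} (hs : s ≤ 0) : ‖rr s‖ ≤ 1 := by
  rw [rr, Complex.norm_real, Real.norm_eq_abs, Real.abs_exp, Real.exp_le_one_iff]
  linarith

theorem norm_ex_le {s : ℝ} (hs : s ≤ 0) : ‖ex s‖ ≤ 1 := by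
  rw [ex, Complex.norm_real, Real.norm_eq_abs, Real.abs_exp, Real.exp_le_one_iff]
  linarith

theorem one_le_cs_sn (θ : ℝ) : 1 ≤ ‖cs θ‖ + ‖sn θ‖ := by
  rw [cs, sn, Complex.norm_real, Complex.norm_real, Real.norm_eq_abs, Real.norm_eq_abs]
  have h := Real.cos_sq_add_sin_sq θ
  rw [← sq_abs (Real.cos θ), ← sq_abs (Real.sin θ)] at h
  nlinarith [abs_nonneg (Real.cos θ), abs_nonneg (Real.sin θ), Real.abs_cos_le_one θ,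
    Real.abs_sin_le_one θ]

/-- a bound for the variables attached to the pole `p` -/
noncomputable def Kp (p : ℂ) : ℝ := 1 / |p.im| + (1 + ‖p‖ / |p.im|)

theorem Kp_nonneg (p : ℂ) : 0 ≤ Kp p := by unfold Kp; positivity

theorem ex_cs_le {p : ℂ} (hp : p.im ≠ 0) (s θ : ℝ) :
    ‖ex s‖ * ‖cs θ‖ ≤ 1 / |p.im| * ‖ell p s θ‖ := by
  have hpos : 0 < |p.im| := abs_pos.mpr hp
  have h1 : (ell p s θ).im = -(p.im * (Real.exp (4 * s) * Real.cos θ)) := by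
    rw [ell, sn, cs, ex, Complex.sub_im, Complex.ofReal_im, mul_assoc, ← Complex.ofReal_mul,
      Complex.im_mul_ofReal]
    ring
  have h2 := Complex.abs_im_le_norm (ell p s θ)
  rw [h1, abs_neg, abs_mul, abs_mul] at h2
  rw [ex, cs, Complex.norm_real, Complex.norm_real, Real.norm_eq_abs, Real.norm_eq_abs]
  rw [one_div, inv_mul_eq_div, le_div_iff₀ hpos]
  linarith

theorem sn_le {p : ℂ} (hp : p.im ≠ 0) (s θ : ℝ) :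
    ‖sn θ‖ ≤ (1 + ‖p‖ / |p.im|) * ‖ell p s θ‖ := by
  have h1 : sn θ = ell p s θ + p * (ex s * cs θ) := by rw [ell]; ring
  calc ‖sn θ‖ = ‖ell p s θ + p * (ex s * cs θ)‖ := by rw [← h1]
    _ ≤ ‖ell p s θ‖ + ‖p‖ * (‖ex s‖ * ‖cs θ‖) := by
        refine (norm_add_le _ _).trans ?_
        rw [norm_mul, norm_mul]
    _ ≤ ‖ell p s θ‖ + ‖p‖ * (1 / |p.im| * ‖ell p s θ‖) := by
        have := ex_cs_le hp s θ
        gcongr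
    _ = _ := by ring

theorem ex_le {p : ℂ} (hp : p.im ≠ 0) {s : ℝ} (hs : s ≤ 0) (θ : ℝ) :
    ‖ex s‖ ≤ Kp p * ‖ell p s θ‖ := by
  have h1 := one_le_cs_sn θ
  have h2 := ex_cs_le hp s θ
  have h3 := sn_le hp s θ
  have h4 := norm_ex_le hs
  calc ‖ex s‖ ≤ ‖ex s‖ * (‖cs θ‖ + ‖sn θ‖) := le_mul_of_one_le_right (norm_nonneg _) h1
    _ = ‖ex s‖ * ‖cs θ‖ + ‖ex s‖ * ‖sn θ‖ := by ring
    _ ≤ ‖ex s‖ * ‖cs θ‖ + 1 * ‖sn θ‖ := by gcongr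
    _ ≤ 1 / |p.im| * ‖ell p s θ‖ + 1 * ((1 + ‖p‖ / |p.im|) * ‖ell p s θ‖) := by gcongr
    _ = _ := by rw [Kp]; ring

theorem norm_aa_le {p : ℂ} (hp : p.im ≠ 0) {s : ℝ} (hs : s ≤ 0) (θ : ℝ) : ‖aa p s θ‖ ≤ Kp p := by
  rw [aa, norm_div, div_le_iff₀ (norm_pos_iff.mpr (ell_ne hp s θ))]
  exact ex_le hp hs θ

theorem norm_bb_le {p : ℂ} (hp : p.im ≠ 0) (s θ : ℝ) : ‖bb p s θ‖ ≤ Kp p := by
  rw [bb, norm_div, div_le_iff₀ (norm_pos_iff.mpr (ell_ne hp s θ))]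
  refine (sn_le hp s θ).trans ?_
  have : 0 ≤ 1 / |p.im| * ‖ell p s θ‖ := by positivity
  rw [Kp]
  nlinarith

theorem norm_ee_le {p : ℂ} (hp : p.im ≠ 0) {s : ℝ} (hs : s ≤ 0) (θ : ℝ) : ‖ee p s θ‖ ≤ Kp p := by
  have h := norm_aa_le hp hs θ
  rw [ee, norm_mul]
  rw [aa] at h
  calc ‖cs θ‖ * ‖ex s / ell p s θ‖ ≤ 1 * ‖ex s / ell p s θ‖ := by
        gcongr; exact norm_cs_le θ
    _ ≤ _ := by rw [one_mul]; exact h

/-- the global bound -/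
noncomputable def KD (D : Data) : ℝ := 1 + Kp D.p1 + Kp D.p2

theorem vars_mem (D : Data) {s : ℝ} (hs : s ≤ 0) (θ : ℝ) :
    vars D s θ ∈ closedBall (0 : ℂ × ℂ × ℂ × ℂ × ℂ × ℂ × ℂ) (KD D) := by
  rw [mem_closedBall_zero_iff, vars]
  have k1 := Kp_nonneg D.p1
  have k2 := Kp_nonneg D.p2
  have e1 := norm_aa_le D.h1 hs θ
  have e2 := norm_bb_le D.h1 s θ
  have e3 := norm_ee_le D.h1 hs θ
  have e4 := norm_aa_le D.h2 hs θ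
  have e5 := norm_bb_le D.h2 s θ
  have e6 := norm_ee_le D.h2 hs θ
  have e7 := norm_rr_le hs
  rw [KD]
  simp only [Prod.norm_mk, sup_le_iff]
  refine ⟨?_, ?_, ?_, ?_, ?_, ?_, ?_⟩ <;> linarith

theorem exists_bounds (D : Data) : ∃ K : ℝ, 0 ≤ K ∧ ∀ s θ : ℝ, s ≤ 0 →
    ‖RX D (vars D s θ)‖ ≤ K ∧ ‖RY D (vars D s θ)‖ ≤ K ∧
    ‖XL D (ee D.p1 s θ) (ee D.p2 s θ)‖ ≤ K ∧ ‖YL D (ee D.p1 s θ) (ee D.p2 s θ)‖ ≤ K := by
  have c1 : Continuous (RX D) := by unfold RX; fun_prop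
  have c2 : Continuous (RY D) := by unfold RY; fun_prop
  have c3 : Continuous (fun w : ℂ × ℂ × ℂ × ℂ × ℂ × ℂ × ℂ => XL D w.2.2.2.1 w.2.2.2.2.2.2) := by
    unfold XL; fun_prop
  have c4 : Continuous (fun w : ℂ × ℂ × ℂ × ℂ × ℂ × ℂ × ℂ => YL D w.2.2.2.1 w.2.2.2.2.2.2) := by
    unfold YL; fun_prop
  have hc := isCompact_closedBall (0 : ℂ × ℂ × ℂ × ℂ × ℂ × ℂ × ℂ) (KD D)
  obtain ⟨K1, H1⟩ := hc.exists_bound_of_continuousOn c1.continuousOn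
  obtain ⟨K2, H2⟩ := hc.exists_bound_of_continuousOn c2.continuousOn
  obtain ⟨K3, H3⟩ := hc.exists_bound_of_continuousOn c3.continuousOn
  obtain ⟨K4, H4⟩ := hc.exists_bound_of_continuousOn c4.continuousOn
  refine ⟨|K1| + |K2| + |K3| + |K4|, by positivity, fun s θ hs => ?_⟩
  have hm := vars_mem D hs θ
  have g1 := H1 _ hm
  have g2 := H2 _ hm
  have g3 := H3 _ hm
  have g4 := H4 _ hm
  have l1 := le_abs_self K1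
  have l2 := le_abs_self K2
  have l3 := le_abs_self K3
  have l4 := le_abs_self K4
  have m1 := abs_nonneg K1
  have m2 := abs_nonneg K2
  have m3 := abs_nonneg K3
  have m4 := abs_nonneg K4
  refine ⟨by linarith, by linarith, ?_, ?_⟩
  · change ‖XL D (vars D s θ).2.2.2.1 (vars D s θ).2.2.2.2.2.2‖ ≤ _
    linarith
  · change ‖YL D (vars D s θ).2.2.2.1 (vars D s θ).2.2.2.2.2.2‖ ≤ _
    linarith

end Pool.Agent.H99.Loewner
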