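import Mathlib

/-!
Polar coordinates: second derivatives of `G` at `z = exp (s + i θ)` in terms of the derivatives of
`G (exp (s + i θ))`, and the resulting formula for the Hopf-type differential.
-/

set_option autoImplicit false

namespace Pool.Agent.H99.Loewner

open Complex Set Filter Topology Metric
open scoped ContDiff

/-- the point `exp (s + i θ)` -/
noncomputable def pt (s θ : ℝ) : ℂ := exp ((s : ℂ) + (θ : ℂ) * I)

theorem pt_ne (s θ : ℝ) : pt s θ ≠ 0 := exp_ne_zero _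

theorem hasDerivAt_pt_s (s θ : ℝ) : HasDerivAt (fun s => pt s θ) (pt s θ) s := by
  have h1 : HasDerivAt (fun s : ℝ => (s : ℂ) + (θ : ℂ) * I) 1 s := by
    simpa using (Complex.ofRealCLM.hasDerivAt (x := s)).add_const ((θ : ℂ) * I)
  have h2 := h1.cexp
  rw [mul_one] at h2
  exact h2

theorem hasDerivAt_pt_t (s θ : ℝ) : HasDerivAt (fun θ => pt s θ) (I * pt s θ) θ := by
  have h1 : HasDerivAt (fun θ : ℝ => (s : ℂ) + (θ : ℂ) * I) I θ := by
    simpa using ((Complex.ofRealCLM.hasDerivAt (x := θ)).mul_const I).const_add (s : ℂ)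
  have := h1.cexp
  rw [mul_comm] at this
  exact this

section
variable {G : ℂ → ℂ}

theorem hd_s (hG : ∀ z, z ≠ 0 → ContDiffAt ℝ ∞ G z) (s θ : ℝ) :
    HasDerivAt (fun s => G (pt s θ)) (fderiv ℝ G (pt s θ) (pt s θ)) s :=
  ((hG _ (pt_ne s θ)).differentiableAt (by simp)).hasFDerivAt.comp_hasDerivAt s (hasDerivAt_pt_s s θ)

theorem hd_t (hG : ∀ z, z ≠ 0 → ContDiffAt ℝ ∞ G z) (s θ : ℝ) :
    HasDerivAt (fun θ => G (pt s θ)) (fderiv ℝ G (pt s θ) (I * pt s θ)) θ :=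
  ((hG _ (pt_ne s θ)).differentiableAt (by simp)).hasFDerivAt.comp_hasDerivAt θ (hasDerivAt_pt_t s θ)

theorem diff2 (hG : ∀ z, z ≠ 0 → ContDiffAt ℝ ∞ G z) {z : ℂ} (hz : z ≠ 0) :
    DifferentiableAt ℝ (fderiv ℝ G) z :=
  ((hG z hz).fderiv_right (m := ∞) (by simp)).differentiableAt (by simp)

theorem hd_ss (hG : ∀ z, z ≠ 0 → ContDiffAt ℝ ∞ G z) (s θ : ℝ) :
    HasDerivAt (fun s => fderiv ℝ G (pt s θ) (pt s θ))
      (fderiv ℝ (fderiv ℝ G) (pt s θ) (pt s θ) (pt s θ) + fderiv ℝ G (pt s θ) (pt s θ)) s := by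
  have h1 : HasDerivAt (fun s => fderiv ℝ G (pt s θ)) (fderiv ℝ (fderiv ℝ G) (pt s θ) (pt s θ)) s :=
    (diff2 hG (pt_ne s θ)).hasFDerivAt.comp_hasDerivAt s (hasDerivAt_pt_s s θ)
  exact h1.clm_apply (hasDerivAt_pt_s s θ)

theorem hd_tt (hG : ∀ z, z ≠ 0 → ContDiffAt ℝ ∞ G z) (s θ : ℝ) :
    HasDerivAt (fun θ => fderiv ℝ G (pt s θ) (I * pt s θ))
      (fderiv ℝ (fderiv ℝ G) (pt s θ) (I * pt s θ) (I * pt s θ) - fderiv ℝ G (pt s θ) (pt s θ)) θ := by
  have h1 : HasDerivAt (fun θ => fderiv ℝ G (pt s θ))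
      (fderiv ℝ (fderiv ℝ G) (pt s θ) (I * pt s θ)) θ :=
    (diff2 hG (pt_ne s θ)).hasFDerivAt.comp_hasDerivAt θ (hasDerivAt_pt_t s θ)
  have h2 := h1.clm_apply ((hasDerivAt_pt_t s θ).const_mul I)
  have e : I * (I * pt s θ) = -pt s θ := by rw [← mul_assoc, I_mul_I, neg_one_mul]
  rw [e, map_neg, ← sub_eq_add_neg] at h2
  exact h2

theorem hd_st (hG : ∀ z, z ≠ 0 → ContDiffAt ℝ ∞ G z) (s θ : ℝ) :
    HasDerivAt (fun s => fderiv ℝ G (pt s θ) (I * pt s θ))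
      (fderiv ℝ (fderiv ℝ G) (pt s θ) (pt s θ) (I * pt s θ) + fderiv ℝ G (pt s θ) (I * pt s θ)) s := by
  have h1 : HasDerivAt (fun s => fderiv ℝ G (pt s θ)) (fderiv ℝ (fderiv ℝ G) (pt s θ) (pt s θ)) s :=
    (diff2 hG (pt_ne s θ)).hasFDerivAt.comp_hasDerivAt s (hasDerivAt_pt_s s θ)
  exact h1.clm_apply ((hasDerivAt_pt_s s θ).const_mul I)

/-- The polar second derivatives determine `X` and `Y`. -/
theorem polar_XY (hG : ∀ z, z ≠ 0 → ContDiffAt ℝ ∞ G z)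
    {g gs gt gss gtt gst : ℝ → ℝ → ℂ}
    (h0 : ∀ s θ, G (pt s θ) = g s θ)
    (hs : ∀ s θ, HasDerivAt (fun s => g s θ) (gs s θ) s)
    (ht : ∀ s θ, HasDerivAt (fun θ => g s θ) (gt s θ) θ)
    (hss : ∀ s θ, HasDerivAt (fun s => gs s θ) (gss s θ) s)
    (htt : ∀ s θ, HasDerivAt (fun θ => gt s θ) (gtt s θ) θ)
    (hst : ∀ s θ, HasDerivAt (fun s => gt s θ) (gst s θ) s) (s θ : ℝ) :
    fderiv ℝ (fderiv ℝ G) (pt s θ) (pt s θ) (pt s θ)
      - fderiv ℝ (fderiv ℝ G) (pt s θ) (I * pt s θ) (I * pt s θ) = gss s θ - 2 * gs s θ - gtt s θ ∧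
    2 * fderiv ℝ (fderiv ℝ G) (pt s θ) (pt s θ) (I * pt s θ) = 2 * (gst s θ - gt s θ) := by
  have e1 : ∀ s θ, fderiv ℝ G (pt s θ) (pt s θ) = gs s θ := by
    intro s θ
    have a := hd_s hG s θ
    simp only [h0] at a
    exact a.unique (hs s θ)
  have e2 : ∀ s θ, fderiv ℝ G (pt s θ) (I * pt s θ) = gt s θ := by
    intro s θ
    have a := hd_t hG s θ
    simp only [h0] at a
    exact a.unique (ht s θ)
  have e3 := hd_ss hG s θ
  have e4 := hd_tt hG s θ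
  have e5 := hd_st hG s θ
  simp only [e1, e2] at e3 e4 e5
  have f3 := e3.unique (hss s θ)
  have f4 := e4.unique (htt s θ)
  have f5 := e5.unique (hst s θ)
  constructor
  · linear_combination f3 - f4
  · linear_combination 2 * f5

/-- The quadratic differential of the real part. -/
theorem Q_formula (hG : ∀ z, z ≠ 0 → ContDiffAt ℝ ∞ G z) {z : ℂ} (hz : z ≠ 0) :
    (starRingEnd ℂ z) ^ 2 *
      (((iteratedFDeriv ℝ 2 (fun w => (G w).re) z ![(1 : ℂ), 1] -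
        iteratedFDeriv ℝ 2 (fun w => (G w).re) z ![Complex.I, Complex.I] : ℝ) : ℂ)
            + 2 * ((iteratedFDeriv ℝ 2 (fun w => (G w).re) z ![(1 : ℂ), Complex.I] : ℝ) : ℂ) * I) =
      (((fderiv ℝ (fderiv ℝ G) z z z - fderiv ℝ (fderiv ℝ G) z (I * z) (I * z)).re : ℝ) : ℂ) +
        (((2 * fderiv ℝ (fderiv ℝ G) z z (I * z)).re : ℝ) : ℂ) * I := by
  have h1 : fderiv ℝ (fun w => (G w).re) =ᶠ[𝓝 z] fun w => Complex.reCLM.comp (fderiv ℝ G w) := by
    filter_upwards [isOpen_compl_singleton.mem_nhds hz] with w hw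
    have := ((hG w hw).differentiableAt (by simp)).hasFDerivAt
    exact ((Complex.reCLM.hasFDerivAt).comp w this).fderiv
  have h2 : ∀ v w : ℂ, iteratedFDeriv ℝ 2 (fun w => (G w).re) z ![v, w] =
      (fderiv ℝ (fderiv ℝ G) z v w).re := by
    intro v w
    rw [iteratedFDeriv_two_apply]
    simp only [Matrix.cons_val_zero, Matrix.cons_val_one]
    rw [h1.fderiv_eq]
    have h3 : HasFDerivAt (fun w => Complex.reCLM.comp (fderiv ℝ G w))
        ((ContinuousLinearMap.compL ℝ ℂ ℂ ℝ Complex.reCLM).comp (fderiv ℝ (fderiv ℝ G) z)) z :=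
      (ContinuousLinearMap.compL ℝ ℂ ℂ ℝ Complex.reCLM).hasFDerivAt.comp z (diff2 hG hz).hasFDerivAt
    rw [h3.fderiv]
    rfl
  rw [h2, h2, h2]
  -- symmetric bilinear form
  set B := fderiv ℝ (fderiv ℝ G) z with hB
  have hsymm : ∀ v w : ℂ, B v w = B w v := by
    intro v w
    have hc : ContDiffAt ℝ 2 G z := (hG z hz).of_le (WithTop.coe_le_coe.mpr le_top)
    have := hc.isSymmSndFDerivAt (by simp)
    exact this v w
  have hexp : ∀ v w : ℂ, B v w = (v.re * w.re : ℝ) • B 1 1 + (v.re * w.im + v.im * w.re : ℝ) • B 1 I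
      + (v.im * w.im : ℝ) • B I I := by
    intro v w
    have hv : v = (v.re : ℝ) • (1 : ℂ) + (v.im : ℝ) • I := by simp
    have hw : w = (w.re : ℝ) • (1 : ℂ) + (w.im : ℝ) • I := by simp
    conv_lhs => rw [hv, hw]
    simp only [map_add, map_smul, add_apply, smul_apply, smul_add, smul_smul]
    rw [hsymm I 1]
    module
  rw [hexp z z, hexp (I * z) (I * z), hexp z (I * z)]
  apply Complex.ext
  · simp [pow_two]
    ring
  · simp [pow_two]
    ring
end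

end Pool.Agent.H99.Loewner
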