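import Mathlib

/-!
Flat functions: if `a` is smooth off the origin and all its derivatives grow at most polynomially
at the origin, then `exp (-c / |z|^2) * a z` (extended by `0`) is smooth.
-/

set_option autoImplicit false

namespace Pool.Agent.H99.Loewner

open Complex Set Filter Topology Metric
open scoped ContDiff

/-- derivative in the direction `1` -/
noncomputable def dx (g : ℂ → ℂ) (z : ℂ) : ℂ := fderiv ℝ g z 1
/-- derivative in the direction `i` -/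
noncomputable def dy (g : ℂ → ℂ) (z : ℂ) : ℂ := fderiv ℝ g z Complex.I

/-- polynomial growth at the origin -/
def PG (a : ℂ → ℂ) : Prop :=
  ∃ (C : ℝ) (N : ℕ), 0 ≤ C ∧ ∀ z : ℂ, z ≠ 0 → ‖z‖ < 1 → ‖a z‖ ≤ C * (‖z‖⁻¹) ^ N

/-- smooth off the origin -/
def Sm (a : ℂ → ℂ) : Prop := ∀ z : ℂ, z ≠ 0 → ContDiffAt ℝ ∞ a z

/-- polynomial growth of all derivatives of order at most `n` -/
def Good : ℕ → (ℂ → ℂ) → Prop
  | 0, a => PG a
  | n + 1, a => PG a ∧ Good n (dx a) ∧ Good n (dy a)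

theorem Good.pg {n : ℕ} {a : ℂ → ℂ} (h : Good n a) : PG a := by
  cases n with
  | zero => exact h
  | succ n => exact h.1

theorem Good.pred : ∀ {n : ℕ} {a : ℂ → ℂ}, Good (n + 1) a → Good n a
  | 0, _, h => h.1
  | _ + 1, _, h => ⟨h.1, h.2.1.pred, h.2.2.pred⟩

theorem PG.congr {a b : ℂ → ℂ} (h : ∀ z, z ≠ 0 → a z = b z) (ha : PG a) : PG b := by
  obtain ⟨C, N, hC, H⟩ := ha
  exact ⟨C, N, hC, fun z hz hz1 => by rw [← h z hz]; exact H z hz hz1⟩

theorem fderiv_congr_off {a b : ℂ → ℂ} (h : ∀ z, z ≠ 0 → a z = b z) {z : ℂ} (hz : z ≠ 0) :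
    fderiv ℝ a z = fderiv ℝ b z := by
  apply Filter.EventuallyEq.fderiv_eq
  filter_upwards [isOpen_compl_singleton.mem_nhds hz] with w hw
  exact h w hw

theorem Good.congr : ∀ {n : ℕ} {a b : ℂ → ℂ}, (∀ z, z ≠ 0 → a z = b z) → Good n a → Good n b
  | 0, _, _, h, ha => PG.congr h ha
  | _ + 1, _, _, h, ha => ⟨PG.congr h ha.1,
      Good.congr (fun z hz => by rw [dx, dx, fderiv_congr_off h hz]) ha.2.1,
      Good.congr (fun z hz => by rw [dy, dy, fderiv_congr_off h hz]) ha.2.2⟩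

theorem one_le_inv_pow {z : ℂ} (hz : z ≠ 0) (h1 : ‖z‖ < 1) (N : ℕ) : 1 ≤ (‖z‖⁻¹) ^ N := by
  apply one_le_pow₀
  rw [one_le_inv₀ (norm_pos_iff.mpr hz)]
  exact h1.le

theorem PG.mul {a b : ℂ → ℂ} (ha : PG a) (hb : PG b) : PG (fun z => a z * b z) := by
  obtain ⟨C, N, hC, H⟩ := ha
  obtain ⟨C', N', hC', H'⟩ := hb
  refine ⟨C * C', N + N', by positivity, fun z hz h1 => ?_⟩
  rw [norm_mul, pow_add]
  calc ‖a z‖ * ‖b z‖ ≤ (C * (‖z‖⁻¹) ^ N) * (C' * (‖z‖⁻¹) ^ N') :=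
        mul_le_mul (H z hz h1) (H' z hz h1) (norm_nonneg _) (by positivity)
    _ = _ := by ring

theorem PG.add {a b : ℂ → ℂ} (ha : PG a) (hb : PG b) : PG (fun z => a z + b z) := by
  obtain ⟨C, N, hC, H⟩ := ha
  obtain ⟨C', N', hC', H'⟩ := hb
  refine ⟨C + C', N + N', by positivity, fun z hz h1 => ?_⟩
  have e1 : (‖z‖⁻¹) ^ N ≤ (‖z‖⁻¹) ^ (N + N') := by
    rw [pow_add]
    exact le_mul_of_one_le_right (by positivity) (one_le_inv_pow hz h1 _)
  have e2 : (‖z‖⁻¹) ^ N' ≤ (‖z‖⁻¹) ^ (N + N') := by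
    rw [pow_add]
    exact le_mul_of_one_le_left (by positivity) (one_le_inv_pow hz h1 _)
  calc ‖a z + b z‖ ≤ ‖a z‖ + ‖b z‖ := norm_add_le _ _
    _ ≤ C * (‖z‖⁻¹) ^ N + C' * (‖z‖⁻¹) ^ N' := add_le_add (H z hz h1) (H' z hz h1)
    _ ≤ C * (‖z‖⁻¹) ^ (N + N') + C' * (‖z‖⁻¹) ^ (N + N') := by gcongr
    _ = _ := by ring

theorem PG.const (c : ℂ) : PG (fun _ => c) :=
  ⟨‖c‖, 0, norm_nonneg _, fun z _ _ => by simp⟩

theorem Sm.differentiableAt {a : ℂ → ℂ} (h : Sm a) {z : ℂ} (hz : z ≠ 0) :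
    DifferentiableAt ℝ a z := (h z hz).differentiableAt (by simp)

theorem Sm.dx {a : ℂ → ℂ} (h : Sm a) : Sm (dx a) := by
  intro z hz
  have h1 : ContDiffAt ℝ ∞ (fderiv ℝ a) z := (h z hz).fderiv_right (m := ∞) (by simp)
  exact h1.clm_apply contDiffAt_const

theorem Sm.dy {a : ℂ → ℂ} (h : Sm a) : Sm (dy a) := by
  intro z hz
  have h1 : ContDiffAt ℝ ∞ (fderiv ℝ a) z := (h z hz).fderiv_right (m := ∞) (by simp)
  exact h1.clm_apply contDiffAt_const

theorem Sm.mul {a b : ℂ → ℂ} (ha : Sm a) (hb : Sm b) : Sm (fun z => a z * b z) :=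
  fun z hz => (ha z hz).mul (hb z hz)

theorem Sm.add {a b : ℂ → ℂ} (ha : Sm a) (hb : Sm b) : Sm (fun z => a z + b z) :=
  fun z hz => (ha z hz).add (hb z hz)

theorem Sm.const (c : ℂ) : Sm (fun _ => c) := fun _ _ => contDiffAt_const

theorem Sm.inv {a : ℂ → ℂ} (ha : Sm a) (h : ∀ z, z ≠ 0 → a z ≠ 0) : Sm (fun z => (a z)⁻¹) :=
  fun z hz => (ha z hz).inv (h z hz)

theorem Good.add : ∀ {n : ℕ} {a b : ℂ → ℂ}, Sm a → Sm b → Good n a → Good n b →
    Good n (fun z => a z + b z)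
  | 0, _, _, _, _, ha, hb => PG.add ha hb
  | n + 1, a, b, sa, sb, ha, hb => by
    refine ⟨ha.1.add hb.1, ?_, ?_⟩
    · refine Good.congr (a := fun z => dx a z + dx b z) (fun z hz => ?_)
        (Good.add sa.dx sb.dx ha.2.1 hb.2.1)
      rw [dx, dx, dx]
      change _ = fderiv ℝ (a + b) z 1
      rw [fderiv_add (sa.differentiableAt hz) (sb.differentiableAt hz)]
      rfl
    · refine Good.congr (a := fun z => dy a z + dy b z) (fun z hz => ?_)
        (Good.add sa.dy sb.dy ha.2.2 hb.2.2)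
      rw [dy, dy, dy]
      change _ = fderiv ℝ (a + b) z I
      rw [fderiv_add (sa.differentiableAt hz) (sb.differentiableAt hz)]
      rfl

theorem fderiv_mul_apply' {a b : ℂ → ℂ} {z : ℂ} (ha : DifferentiableAt ℝ a z)
    (hb : DifferentiableAt ℝ b z) (v : ℂ) :
    fderiv ℝ (fun z => a z * b z) z v = a z * fderiv ℝ b z v + b z * fderiv ℝ a z v := by
  rw [fderiv_fun_mul ha hb]
  simp

theorem Good.mul : ∀ {n : ℕ} {a b : ℂ → ℂ}, Sm a → Sm b → Good n a → Good n b →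
    Good n (fun z => a z * b z)
  | 0, _, _, _, _, ha, hb => PG.mul ha hb
  | n + 1, a, b, sa, sb, ha, hb => by
    refine ⟨ha.1.mul hb.1, ?_, ?_⟩
    · refine Good.congr (a := fun z => a z * dx b z + b z * dx a z) (fun z hz => ?_)
        (Good.add (sa.mul sb.dx) (sb.mul sa.dx) (Good.mul sa sb.dx ha.pred hb.2.1)
          (Good.mul sb sa.dx hb.pred ha.2.1))
      rw [dx, dx, dx, fderiv_mul_apply' (sa.differentiableAt hz) (sb.differentiableAt hz)]
    · refine Good.congr (a := fun z => a z * dy b z + b z * dy a z) (fun z hz => ?_)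
        (Good.add (sa.mul sb.dy) (sb.mul sa.dy) (Good.mul sa sb.dy ha.pred hb.2.2)
          (Good.mul sb sa.dy hb.pred ha.2.2))
      rw [dy, dy, dy, fderiv_mul_apply' (sa.differentiableAt hz) (sb.differentiableAt hz)]

theorem Good.const : ∀ (n : ℕ) (c : ℂ), Good n (fun _ => c)
  | 0, c => PG.const c
  | n + 1, c => by
    refine ⟨PG.const c, ?_, ?_⟩
    · refine Good.congr (a := fun _ => 0) (fun z _ => ?_) (Good.const n 0)
      simp [dx]
    · refine Good.congr (a := fun _ => 0) (fun z _ => ?_) (Good.const n 0)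
      simp [dy]

/-- linear functions -/
theorem Good.clm (L : ℂ →L[ℝ] ℂ) (n : ℕ) : Good n (fun z => L z) := by
  have h0 : PG (fun z => L z) := by
    refine ⟨‖L‖, 0, norm_nonneg _, fun z _ h1 => ?_⟩
    rw [pow_zero, mul_one]
    calc ‖L z‖ ≤ ‖L‖ * ‖z‖ := L.le_opNorm z
      _ ≤ ‖L‖ * 1 := by gcongr
      _ = ‖L‖ := mul_one _
  cases n with
  | zero => exact h0
  | succ n =>
    refine ⟨h0, ?_, ?_⟩
    · refine Good.congr (a := fun _ => L 1) (fun z _ => ?_) (Good.const n _)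
      rw [dx, L.fderiv]
    · refine Good.congr (a := fun _ => L I) (fun z _ => ?_) (Good.const n _)
      rw [dy, L.fderiv]

theorem Sm.clm (L : ℂ →L[ℝ] ℂ) : Sm (fun z => L z) := fun _ _ => L.contDiff.contDiffAt

theorem Good.inv : ∀ {n : ℕ} {a : ℂ → ℂ}, Sm a → (∀ z, z ≠ 0 → a z ≠ 0) → Good n a →
    PG (fun z => (a z)⁻¹) → Good n (fun z => (a z)⁻¹)
  | 0, _, _, _, _, h => h
  | n + 1, a, sa, h0, ha, h => by
    have hi : Good n (fun z => (a z)⁻¹) := Good.inv sa h0 ha.pred h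
    have si := sa.inv h0
    have key : ∀ z, z ≠ 0 → ∀ v, fderiv ℝ (fun z => (a z)⁻¹) z v =
        -1 * (fderiv ℝ a z v * ((a z)⁻¹ * (a z)⁻¹)) := by
      intro z hz v
      have e1 : HasFDerivAt (fun z => (a z)⁻¹) (fderiv ℝ (fun z => (a z)⁻¹) z) z :=
        (si.differentiableAt hz).hasFDerivAt
      have e2 : (fun z => a z * (a z)⁻¹) =ᶠ[𝓝 z] fun _ => (1 : ℂ) := by
        filter_upwards [isOpen_compl_singleton.mem_nhds hz] with w hw
        exact mul_inv_cancel₀ (h0 w hw)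
      have e3 := fderiv_mul_apply' (sa.differentiableAt hz) (si.differentiableAt hz) v
      rw [e2.fderiv_eq] at e3
      simp only [fderiv_fun_const, Pi.zero_apply, zero_apply] at e3
      have h4 := h0 z hz
      have h5 : a z * (fderiv ℝ (fun z => (a z)⁻¹) z) v = -((a z)⁻¹ * (fderiv ℝ a z) v) := by
        linear_combination -e3
      apply mul_left_cancel₀ h4
      rw [h5]
      have h6 : a z * (a z)⁻¹ = 1 := mul_inv_cancel₀ h4
      linear_combination (fderiv ℝ a z v * (a z)⁻¹) * h6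
    refine ⟨h, ?_, ?_⟩
    · refine Good.congr (a := fun z => -1 * (dx a z * ((a z)⁻¹ * (a z)⁻¹))) (fun z hz => ?_)
        (Good.mul (Sm.const _) (sa.dx.mul (si.mul si)) (Good.const _ _)
          (Good.mul sa.dx (si.mul si) ha.2.1 (Good.mul si si hi hi)))
      exact (key z hz 1).symm
    · refine Good.congr (a := fun z => -1 * (dy a z * ((a z)⁻¹ * (a z)⁻¹))) (fun z hz => ?_)
        (Good.mul (Sm.const _) (sa.dy.mul (si.mul si)) (Good.const _ _)
          (Good.mul sa.dy (si.mul si) ha.2.2 (Good.mul si si hi hi)))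
      exact (key z hz I).symm

/-! ### the flat factor -/

/-- `|z|^2` as a complex number -/
noncomputable def rho (z : ℂ) : ℂ := (normSq z : ℂ)

theorem rho_ne {z : ℂ} (hz : z ≠ 0) : rho z ≠ 0 := by
  simp [rho, hz]

theorem rho_eq (z : ℂ) : rho z = z * (starRingEnd ℂ) z := by
  rw [rho, Complex.mul_conj]

theorem Sm.id : Sm (fun z => z) := fun _ _ => contDiffAt_id
theorem Good.id (n : ℕ) : Good n (fun z => z) := Good.clm (ContinuousLinearMap.id ℝ ℂ) n
theorem Sm.conj : Sm (fun z => (starRingEnd ℂ) z) := Sm.clm (Complex.conjCLE : ℂ →L[ℝ] ℂ)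
theorem Good.conj (n : ℕ) : Good n (fun z => (starRingEnd ℂ) z) :=
  Good.clm (Complex.conjCLE : ℂ →L[ℝ] ℂ) n

theorem sm_rho : Sm rho := by
  have h : rho = fun z => z * (starRingEnd ℂ) z := funext rho_eq
  rw [h]
  exact Sm.id.mul Sm.conj

theorem good_rho (n : ℕ) : Good n rho := by
  have h : rho = fun z => z * (starRingEnd ℂ) z := funext rho_eq
  rw [h]
  exact Good.mul Sm.id Sm.conj (Good.id n) (Good.conj n)

theorem norm_rho (z : ℂ) : ‖rho z‖ = ‖z‖ ^ 2 := by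
  rw [rho, Complex.norm_real, Complex.normSq_eq_norm_sq, Real.norm_eq_abs, abs_of_nonneg (by positivity)]

theorem sm_inv_rho : Sm (fun z => (rho z)⁻¹) := sm_rho.inv fun _ hz => rho_ne hz

theorem good_inv_rho (n : ℕ) : Good n (fun z => (rho z)⁻¹) := by
  refine Good.inv sm_rho (fun _ hz => rho_ne hz) (good_rho n) ⟨1, 2, zero_le_one, fun z hz h1 => ?_⟩
  rw [norm_inv, norm_rho, one_mul, inv_pow]

open Classical in
/-- the flat factor `exp (-c / |z|^2)`, with value `0` at `0` -/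
noncomputable def E (c : ℂ) (z : ℂ) : ℂ := if z = 0 then 0 else exp (-c * (rho z)⁻¹)

theorem E_zero (c : ℂ) : E c 0 = 0 := by simp [E]
theorem E_ne (c : ℂ) {z : ℂ} (hz : z ≠ 0) : E c z = exp (-c * (rho z)⁻¹) := by simp [E, hz]

theorem sm_E (c : ℂ) : Sm (E c) := by
  intro z hz
  have h1 : ContDiffAt ℝ ∞ (fun z => exp (-c * (rho z)⁻¹)) z :=
    (contDiffAt_const.mul (sm_inv_rho z hz)).cexp
  refine h1.congr_of_eventuallyEq ?_
  filter_upwards [isOpen_compl_singleton.mem_nhds hz] with w hw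
  exact E_ne c hw

theorem fderiv_E (c : ℂ) {z : ℂ} (hz : z ≠ 0) (v : ℂ) :
    fderiv ℝ (E c) z v = E c z * fderiv ℝ (fun z => -c * (rho z)⁻¹) z v := by
  have h0 : DifferentiableAt ℝ (fun z => -c * (rho z)⁻¹) z :=
    (Sm.mul (Sm.const _) sm_inv_rho).differentiableAt hz
  have h1 : E c =ᶠ[𝓝 z] fun z => exp (-c * (rho z)⁻¹) := by
    filter_upwards [isOpen_compl_singleton.mem_nhds hz] with w hw
    exact E_ne c hw
  rw [h1.fderiv_eq, E_ne c hz]
  have h2 := h0.hasFDerivAt.cexp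
  rw [h2.fderiv]
  simp

theorem norm_E_le (c : ℂ) (hc : 0 < c.re) (N : ℕ) : ∃ C : ℝ, 0 ≤ C ∧ ∀ z : ℂ, z ≠ 0 →
    ‖E c z‖ ≤ C * ‖z‖ ^ N := by
  -- exp(-c.re / r^2) ≤ C r^N : from x^N ≤ N! e^x
  refine ⟨(N.factorial : ℝ) / (c.re ^ N) + 1, by positivity, fun z hz => ?_⟩
  have hr : 0 < ‖z‖ := norm_pos_iff.mpr hz
  rw [E_ne c hz, Complex.norm_exp]
  have h1 : (-c * (rho z)⁻¹).re = -(c.re / ‖z‖ ^ 2) := by
    rw [rho, ← Complex.ofReal_inv, Complex.re_mul_ofReal, Complex.normSq_eq_norm_sq]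
    simp [div_eq_mul_inv]
  rw [h1]
  have hx : 0 < c.re / ‖z‖ ^ 2 := by positivity
  have h2 : (c.re / ‖z‖ ^ 2) ^ N / N.factorial ≤ Real.exp (c.re / ‖z‖ ^ 2) :=
    Real.pow_div_factorial_le_exp _ hx.le N
  have h3 : Real.exp (-(c.re / ‖z‖ ^ 2)) ≤ 1 := Real.exp_le_one_iff.mpr (by linarith)
  have h4 : Real.exp (-(c.re / ‖z‖ ^ 2)) * (c.re / ‖z‖ ^ 2) ^ N ≤ N.factorial := by
    rw [Real.exp_neg, inv_mul_le_iff₀ (Real.exp_pos _)]
    rw [div_le_iff₀ (by positivity)] at h2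
    exact h2
  have h5 : Real.exp (-(c.re / ‖z‖ ^ 2)) ≤ (N.factorial : ℝ) / (c.re ^ N) * (‖z‖ ^ 2) ^ N := by
    rw [div_pow, ← mul_div_assoc, div_le_iff₀ (by positivity)] at h4
    rw [div_mul_eq_mul_div, le_div_iff₀ (by positivity)]
    exact h4
  rcases le_or_gt ‖z‖ 1 with h6 | h6
  · have h7 : (‖z‖ ^ 2) ^ N ≤ ‖z‖ ^ N := by
      apply pow_le_pow_left₀ (by positivity)
      nlinarith
    calc _ ≤ (N.factorial : ℝ) / (c.re ^ N) * (‖z‖ ^ 2) ^ N := h5
      _ ≤ (N.factorial : ℝ) / (c.re ^ N) * ‖z‖ ^ N := by gcongr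
      _ ≤ _ := by
        have : 0 ≤ ‖z‖ ^ N := by positivity
        nlinarith
  · have h7 : 1 ≤ ‖z‖ ^ N := one_le_pow₀ h6.le
    have h8 : 0 ≤ (N.factorial : ℝ) / (c.re ^ N) := by positivity
    nlinarith

theorem norm_E_mul_le (c : ℂ) (hc : 0 < c.re) {a : ℂ → ℂ} (ha : PG a) :
    ∃ C : ℝ, 0 ≤ C ∧ ∀ z : ℂ, ‖z‖ < 1 → ‖E c z * a z‖ ≤ C * ‖z‖ ^ 2 := by
  obtain ⟨C, N, hC, H⟩ := ha
  obtain ⟨C', hC', H'⟩ := norm_E_le c hc (N + 2)
  refine ⟨C' * C, by positivity, fun z h1 => ?_⟩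
  by_cases hz : z = 0
  · subst hz
    simp [E_zero]
  · have hr : 0 < ‖z‖ := norm_pos_iff.mpr hz
    rw [norm_mul]
    calc ‖E c z‖ * ‖a z‖ ≤ (C' * ‖z‖ ^ (N + 2)) * (C * (‖z‖⁻¹) ^ N) :=
          mul_le_mul (H' z hz) (H z hz h1) (norm_nonneg _) (by positivity)
      _ = C' * C * ‖z‖ ^ 2 * (‖z‖ ^ N * (‖z‖⁻¹) ^ N) := by ring
      _ = _ := by rw [← mul_pow, mul_inv_cancel₀ hr.ne', one_pow, mul_one]

theorem hasFDerivAt_zero (c : ℂ) (hc : 0 < c.re) {a : ℂ → ℂ} (ha : PG a) :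
    HasFDerivAt (fun z => E c z * a z) (0 : ℂ →L[ℝ] ℂ) 0 := by
  obtain ⟨C, hC, H⟩ := norm_E_mul_le c hc ha
  rw [hasFDerivAt_iff_isLittleO_nhds_zero]
  simp only [zero_add, E_zero, zero_mul, sub_zero, zero_apply]
  have h1 : (fun z : ℂ => E c z * a z) =O[𝓝 0] fun z : ℂ => ‖z‖ ^ 2 := by
    refine Asymptotics.IsBigO.of_bound C ?_
    filter_upwards [Metric.ball_mem_nhds (0 : ℂ) one_pos] with z hz
    rw [mem_ball_zero_iff] at hz
    simpa using H z hz
  refine h1.trans_isLittleO ?_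
  have h2 := Asymptotics.isLittleO_norm_pow_id (E' := ℂ) (n := 2) one_lt_two
  exact h2

theorem fderiv_flat (c : ℂ) (hc : 0 < c.re) {a : ℂ → ℂ} (sa : Sm a) (ha : PG a) (z v : ℂ) :
    fderiv ℝ (fun z => E c z * a z) z v =
      E c z * (fderiv ℝ a z v + a z * fderiv ℝ (fun z => -c * (rho z)⁻¹) z v) := by
  by_cases hz : z = 0
  · subst hz
    rw [(hasFDerivAt_zero c hc ha).fderiv, E_zero, zero_mul]
    rfl
  · rw [fderiv_mul_apply' ((sm_E c).differentiableAt hz) (sa.differentiableAt hz), fderiv_E c hz]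
    ring

theorem contDiffOn_flat (c : ℂ) (hc : 0 < c.re) : ∀ (n : ℕ) {a : ℂ → ℂ}, Sm a → Good n a →
    ContDiffOn ℝ n (fun z => E c z * a z) (ball 0 1)
  | 0, a, sa, ha => by
    rw [Nat.cast_zero, contDiffOn_zero]
    intro z hz
    apply ContinuousAt.continuousWithinAt
    by_cases h : z = 0
    · subst h
      exact (hasFDerivAt_zero c hc ha).continuousAt
    · exact (((sm_E c) z h).mul (sa z h)).continuousAt
  | n + 1, a, sa, ha => by
    have sc : Sm (fun z => -c * (rho z)⁻¹) := Sm.mul (Sm.const _) sm_inv_rho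
    have gc : ∀ m, Good m (fun z => -c * (rho z)⁻¹) := fun m =>
      Good.mul (Sm.const _) sm_inv_rho (Good.const _ _) (good_inv_rho m)
    rw [Nat.cast_add, Nat.cast_one, contDiffOn_succ_iff_fderiv_of_isOpen isOpen_ball]
    refine ⟨?_, by simp, ?_⟩
    · intro z hz
      apply DifferentiableAt.differentiableWithinAt
      by_cases h : z = 0
      · subst h
        exact (hasFDerivAt_zero c hc ha.pg).differentiableAt
      · exact ((sm_E c).differentiableAt h).mul (sa.differentiableAt h)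
    · have h1 := contDiffOn_flat c hc n (a := fun z => dx a z + a z * dx (fun z => -c * (rho z)⁻¹) z)
        (Sm.add sa.dx (sa.mul sc.dx))
        (Good.add sa.dx (sa.mul sc.dx) ha.2.1 (Good.mul sa sc.dx ha.pred (gc (n + 1)).2.1))
      have h2 := contDiffOn_flat c hc n (a := fun z => dy a z + a z * dy (fun z => -c * (rho z)⁻¹) z)
        (Sm.add sa.dy (sa.mul sc.dy))
        (Good.add sa.dy (sa.mul sc.dy) ha.2.2 (Good.mul sa sc.dy ha.pred (gc (n + 1)).2.2))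
      have h3 : ContDiffOn ℝ n (fun z =>
          (ContinuousLinearMap.smulRightL ℝ ℂ ℂ Complex.reCLM)
            (E c z * (dx a z + a z * dx (fun z => -c * (rho z)⁻¹) z)) +
          (ContinuousLinearMap.smulRightL ℝ ℂ ℂ Complex.imCLM)
            (E c z * (dy a z + a z * dy (fun z => -c * (rho z)⁻¹) z))) (ball 0 1) :=
        ((ContinuousLinearMap.contDiff _).comp_contDiffOn h1).add
          ((ContinuousLinearMap.contDiff _).comp_contDiffOn h2)
      refine h3.congr (fun z _ => ?_)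
      ext v
      have hv : v = (v.re : ℝ) • (1 : ℂ) + (v.im : ℝ) • I := by
        simp
      conv_lhs => rw [hv]
      rw [map_add, map_smul, map_smul, fderiv_flat c hc sa ha.pg, fderiv_flat c hc sa ha.pg]
      simp [dx, dy]

theorem contDiffOn_flat_infty (c : ℂ) (hc : 0 < c.re) {a : ℂ → ℂ} (sa : Sm a)
    (ha : ∀ n, Good n a) : ContDiffOn ℝ ∞ (fun z => E c z * a z) (ball 0 1) := by
  rw [contDiffOn_infty]
  exact fun n => contDiffOn_flat c hc n sa (ha n)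

end Pool.Agent.H99.Loewner
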