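import Mathlib
import Pool.Agent.H99.Loewner.Smooth
import Pool.Agent.H99.Loewner.Polar
import Pool.Agent.H99.Loewner.Bound

/-!
The model function and its smoothness.
-/

set_option autoImplicit false

namespace Pool.Agent.H99.Loewner

open Complex Set Filter Topology Metric
open scoped ContDiff

/-- real part as a complex number -/
noncomputable def xx (z : ℂ) : ℂ := ((z.re : ℝ) : ℂ)
/-- imaginary part as a complex number -/
noncomputable def yy (z : ℂ) : ℂ := ((z.im : ℝ) : ℂ)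

/-- the denominator `y - p x |z|^4` -/
noncomputable def LL (p : ℂ) (z : ℂ) : ℂ := yy z - p * (xx z * (rho z * rho z))

theorem sm_xx : Sm xx := Sm.clm (Complex.ofRealCLM.comp Complex.reCLM)
theorem sm_yy : Sm yy := Sm.clm (Complex.ofRealCLM.comp Complex.imCLM)
theorem good_xx (n : ℕ) : Good n xx := Good.clm (Complex.ofRealCLM.comp Complex.reCLM) n
theorem good_yy (n : ℕ) : Good n yy := Good.clm (Complex.ofRealCLM.comp Complex.imCLM) n

theorem LL_def (p : ℂ) : LL p = fun z => yy z + -p * (xx z * (rho z * rho z)) := by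
  funext z
  rw [LL]; ring

theorem sm_LL (p : ℂ) : Sm (LL p) := by
  rw [LL_def]
  exact sm_yy.add ((Sm.const _).mul (sm_xx.mul (sm_rho.mul sm_rho)))

theorem good_LL (p : ℂ) (n : ℕ) : Good n (LL p) := by
  rw [LL_def]
  have s1 := sm_rho.mul sm_rho
  have g1 : Good n (fun z => rho z * rho z) := Good.mul sm_rho sm_rho (good_rho n) (good_rho n)
  have g2 : Good n (fun z => xx z * (rho z * rho z)) := Good.mul sm_xx s1 (good_xx n) g1
  have g3 : Good n (fun z => -p * (xx z * (rho z * rho z))) :=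
    Good.mul (Sm.const _) (sm_xx.mul s1) (Good.const n _) g2
  exact Good.add sm_yy ((Sm.const _).mul (sm_xx.mul s1)) (good_yy n) g3

/-! ### log-polar form -/

theorem pt_eq (s θ : ℝ) : pt s θ = ((Real.exp s : ℝ) : ℂ) * (cs θ + sn θ * I) := by
  rw [pt, exp_add, exp_mul_I, cs, sn, ofReal_exp, ofReal_cos, ofReal_sin]

theorem xx_pt (s θ : ℝ) : xx (pt s θ) = ((Real.exp s : ℝ) : ℂ) * cs θ := by
  rw [xx, pt_eq, cs, sn, Complex.re_ofReal_mul]
  simp

theorem yy_pt (s θ : ℝ) : yy (pt s θ) = ((Real.exp s : ℝ) : ℂ) * sn θ := by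
  rw [yy, pt_eq, cs, sn, Complex.im_ofReal_mul]
  simp

theorem norm_pt (s θ : ℝ) : ‖pt s θ‖ = Real.exp s := by
  rw [pt, Complex.norm_exp]
  simp

theorem rho_pt (s θ : ℝ) : rho (pt s θ) = rr s := by
  rw [rho, Complex.normSq_eq_norm_sq, norm_pt, rr, ← Real.exp_nat_mul]
  norm_num

theorem LL_pt (p : ℂ) (s θ : ℝ) : LL p (pt s θ) = ((Real.exp s : ℝ) : ℂ) * ell p s θ := by
  rw [LL, xx_pt, yy_pt, rho_pt, ell, ex_eq]
  ring

theorem exists_pt {z : ℂ} (hz : z ≠ 0) : pt (Real.log ‖z‖) (arg z) = z := by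
  rw [pt, exp_add, ← Complex.ofReal_exp, Real.exp_log (norm_pos_iff.mpr hz)]
  exact Complex.norm_mul_exp_arg_mul_I z

theorem LL_ne {p : ℂ} (hp : p.im ≠ 0) {z : ℂ} (hz : z ≠ 0) : LL p z ≠ 0 := by
  rw [← exists_pt hz, LL_pt]
  exact mul_ne_zero (by exact_mod_cast (Real.exp_pos _).ne') (ell_ne hp _ _)

theorem pg_inv_LL {p : ℂ} (hp : p.im ≠ 0) : PG (fun z => (LL p z)⁻¹) := by
  refine ⟨Kp p, 5, Kp_nonneg p, fun z hz h1 => ?_⟩
  obtain ⟨s, hs⟩ : ∃ s, s = Real.log ‖z‖ := ⟨_, rfl⟩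
  obtain ⟨θ, hθ⟩ : ∃ θ, θ = arg z := ⟨_, rfl⟩
  have hz' : pt s θ = z := by rw [hs, hθ]; exact exists_pt hz
  have hs0 : s ≤ 0 := by
    rw [hs]; exact Real.log_nonpos (norm_nonneg _) h1.le
  rw [← hz']
  change ‖(LL p (pt s θ))⁻¹‖ ≤ _
  rw [LL_pt, norm_inv, norm_mul, norm_pt, Complex.norm_real, Real.norm_eq_abs, Real.abs_exp]
  have h2 := ex_le hp hs0 θ
  have h3 : 0 < ‖ell p s θ‖ := norm_pos_iff.mpr (ell_ne hp s θ)
  have h4 : ‖ex s‖ = (Real.exp s) ^ 4 := by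
    rw [ex, Complex.norm_real, Real.norm_eq_abs, Real.abs_exp, ← Real.exp_nat_mul]
    norm_num
  rw [h4] at h2
  have he : 0 < Real.exp s := Real.exp_pos s
  rw [inv_pow, ← div_eq_mul_inv, le_div_iff₀ (by positivity), inv_mul_le_iff₀ (by positivity)]
  calc Real.exp s ^ 5 = Real.exp s * Real.exp s ^ 4 := by ring
    _ ≤ Real.exp s * (Kp p * ‖ell p s θ‖) := by gcongr
    _ = _ := by ring

theorem sm_inv_LL {p : ℂ} (hp : p.im ≠ 0) : Sm (fun z => (LL p z)⁻¹) :=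
  (sm_LL p).inv fun _ hz => LL_ne hp hz

theorem good_inv_LL {p : ℂ} (hp : p.im ≠ 0) (n : ℕ) : Good n (fun z => (LL p z)⁻¹) :=
  Good.inv (sm_LL p) (fun _ hz => LL_ne hp hz) (good_LL p n) (pg_inv_LL hp)

/-- one pole term -/
noncomputable def term (p : ℂ) (z : ℂ) : ℂ :=
  xx z * ((rho z * rho z) * (rho z * rho z)) * (LL p z)⁻¹

theorem sm_term {p : ℂ} (hp : p.im ≠ 0) : Sm (term p) :=
  (sm_xx.mul ((sm_rho.mul sm_rho).mul (sm_rho.mul sm_rho))).mul (sm_inv_LL hp)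

theorem good_term {p : ℂ} (hp : p.im ≠ 0) (n : ℕ) : Good n (term p) := by
  have s1 := sm_rho.mul sm_rho
  have g1 : Good n (fun z => rho z * rho z) := Good.mul sm_rho sm_rho (good_rho n) (good_rho n)
  have s2 := s1.mul s1
  have g2 : Good n (fun z => (rho z * rho z) * (rho z * rho z)) := Good.mul s1 s1 g1 g1
  have g3 : Good n (fun z => xx z * ((rho z * rho z) * (rho z * rho z))) :=
    Good.mul sm_xx s2 (good_xx n) g2
  exact Good.mul (sm_xx.mul s2) (sm_inv_LL hp) g3 (good_inv_LL hp n)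

/-- the non-flat factor -/
noncomputable def amp (D : Data) (z : ℂ) : ℂ :=
  (starRingEnd ℂ) z * (1 + (D.A1 * term D.p1 z + D.A2 * term D.p2 z))

theorem sm_amp (D : Data) : Sm (amp D) :=
  Sm.conj.mul ((Sm.const _).add (((Sm.const _).mul (sm_term D.h1)).add
    ((Sm.const _).mul (sm_term D.h2))))

theorem good_amp (D : Data) (n : ℕ) : Good n (amp D) := by
  have s1 := (Sm.const D.A1).mul (sm_term D.h1)
  have g1 := Good.mul (Sm.const D.A1) (sm_term D.h1) (Good.const n _) (good_term D.h1 n)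
  have s2 := (Sm.const D.A2).mul (sm_term D.h2)
  have g2 := Good.mul (Sm.const D.A2) (sm_term D.h2) (Good.const n _) (good_term D.h2 n)
  have g3 := Good.add s1 s2 g1 g2
  have g4 := Good.add (Sm.const 1) (s1.add s2) (Good.const n 1) g3
  exact Good.mul Sm.conj ((Sm.const 1).add (s1.add s2)) (Good.conj n) g4

/-- the model function -/
noncomputable def FF (D : Data) (z : ℂ) : ℂ := E (D.γ / 2) z * amp D z

theorem contDiffOn_FF (D : Data) (hγ : 0 < D.γ.re) : ContDiffOn ℝ ∞ (FF D) (ball 0 1) := by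
  refine contDiffOn_flat_infty (D.γ / 2) ?_ (sm_amp D) (good_amp D)
  have : D.γ / 2 = D.γ * ((1 / 2 : ℝ) : ℂ) := by push_cast; ring
  rw [this, Complex.re_mul_ofReal]
  positivity

theorem sm_FF (D : Data) : ∀ z, z ≠ 0 → ContDiffAt ℝ ∞ (FF D) z :=
  fun z hz => (sm_E _ z hz).mul (sm_amp D z hz)

theorem term_pt (p : ℂ) (s θ : ℝ) : term p (pt s θ) = h0 p s θ := by
  rw [term, xx_pt, LL_pt, rho_pt, h0, ex_eq]
  have h : ((Real.exp s : ℝ) : ℂ) ≠ 0 := by exact_mod_cast (Real.exp_pos _).ne'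
  rw [mul_inv, div_eq_mul_inv]
  calc ((Real.exp s : ℝ) : ℂ) * cs θ * (rr s * rr s * (rr s * rr s)) *
        (((Real.exp s : ℝ) : ℂ)⁻¹ * (ell p s θ)⁻¹)
      = (((Real.exp s : ℝ) : ℂ) * ((Real.exp s : ℝ) : ℂ)⁻¹) * (cs θ * (rr s * rr s * (rr s * rr s))
        * (ell p s θ)⁻¹) := by ring
    _ = _ := by rw [mul_inv_cancel₀ h]; ring

theorem FF_pt (D : Data) (s θ : ℝ) : FF D (pt s θ) = g0 D s θ := by
  rw [FF, amp, term_pt, term_pt, g0, E_ne _ (pt_ne s θ), rho_pt, cmb, MM]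
  have h1 : (starRingEnd ℂ) (pt s θ) = exp ((s : ℂ) - (θ : ℂ) * I) := by
    rw [pt, ← Complex.exp_conj]
    simp [sub_eq_add_neg]
  have h2 : -(D.γ / 2) * (rr s)⁻¹ = -(kap D s / 2) := by
    have h3 : rr s ≠ 0 := by
      rw [rr]; exact_mod_cast (Real.exp_pos _).ne'
    rw [← kap_mul D s]
    field_simp
  rw [h1, h2, ← mul_assoc, ← exp_add]
  congr 2
  ring

theorem FF_zero (D : Data) : FF D 0 = 0 := by rw [FF, E_zero, zero_mul]

/-- the second derivatives of `FF` -/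
theorem FF_XY (D : Data) (s θ : ℝ) :
    fderiv ℝ (fderiv ℝ (FF D)) (pt s θ) (pt s θ) (pt s θ)
      - fderiv ℝ (fderiv ℝ (FF D)) (pt s θ) (I * pt s θ) (I * pt s θ) = MM D s θ * XX D s θ ∧
    2 * fderiv ℝ (fderiv ℝ (FF D)) (pt s θ) (pt s θ) (I * pt s θ) =
      2 * (MM D s θ * YY D s θ) := by
  have h := polar_XY (G := FF D) (sm_FF D) (FF_pt D) (hd_g0_s D) (hd_g0_t D) (hd_gs_s D)
    (hd_gt_t D) (hd_gt_s D) s θ
  rw [X_eq, Y_eq] at h
  exact h

end Pool.Agent.H99.Loewner
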