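import Mathlib

/-!
Winding numbers of explicit closed curves, through continuous argument functions on `[0, 2π]`.
-/

set_option autoImplicit false

namespace Pool.Agent.H99.Loewner

open Complex Set Filter Topology Metric

/-- `g` never vanishes and has a continuous argument increasing by `2 π n` on `[0, 2π]`. -/
def HasWind (g : ℝ → ℂ) (n : ℤ) : Prop :=
  ∃ φ : ℝ → ℝ, Continuous φ ∧ (∀ θ, g θ = (‖g θ‖ : ℂ) * exp (φ θ * I)) ∧
    φ (2 * Real.pi) - φ 0 = 2 * Real.pi * n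

theorem HasWind.mul {f g : ℝ → ℂ} {m n : ℤ} (hf : HasWind f m) (hg : HasWind g n) :
    HasWind (fun θ => f θ * g θ) (m + n) := by
  obtain ⟨φ, h1, h2, h3⟩ := hf
  obtain ⟨ψ, k1, k2, k3⟩ := hg
  refine ⟨fun θ => φ θ + ψ θ, h1.add k1, fun θ => ?_, ?_⟩
  · simp only [norm_mul]
    conv_lhs => rw [h2 θ, k2 θ]
    push_cast
    rw [add_mul, exp_add]
    ring
  · push_cast
    linarith

theorem HasWind.inv {f : ℝ → ℂ} {m : ℤ} (hf : HasWind f m) :
    HasWind (fun θ => (f θ)⁻¹) (-m) := by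
  obtain ⟨φ, h1, h2, h3⟩ := hf
  refine ⟨fun θ => -φ θ, h1.neg, fun θ => ?_, ?_⟩
  · simp only [norm_inv]
    conv_lhs => rw [h2 θ]
    rw [mul_inv, ← exp_neg]
    push_cast
    rw [neg_mul]
  · push_cast
    linarith

theorem HasWind.congr {f g : ℝ → ℂ} {m : ℤ} (h : ∀ θ, f θ = g θ) (hf : HasWind f m) :
    HasWind g m := by
  have : f = g := funext h
  rw [← this]
  exact hf

theorem hasWind_exp (n : ℤ) : HasWind (fun θ => exp ((n * θ : ℝ) * I)) n := by
  refine ⟨fun θ => n * θ, by fun_prop, fun θ => ?_, by ring⟩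
  rw [Complex.norm_exp_ofReal_mul_I]
  simp

theorem hasWind_const {c : ℂ} : HasWind (fun _ => c) 0 := by
  refine ⟨fun _ => arg c, continuous_const, fun θ => ?_, by simp⟩
  exact (Complex.norm_mul_exp_arg_mul_I c).symm

/-- A closed curve in the slit plane does not wind. -/
theorem hasWind_slit {f : ℝ → ℂ} (hf : Continuous f) (hs : ∀ θ, f θ ∈ slitPlane)
    (hp : f (2 * Real.pi) = f 0) : HasWind f 0 := by
  refine ⟨fun θ => arg (f θ), ?_, fun θ => (Complex.norm_mul_exp_arg_mul_I _).symm, ?_⟩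
  · rw [continuous_iff_continuousAt]
    intro θ
    exact (Complex.continuousAt_arg (hs θ)).comp hf.continuousAt
  · simp [hp]

theorem hasWind_re_pos {f : ℝ → ℂ} (hf : Continuous f) (hs : ∀ θ, 0 < (f θ).re)
    (hp : f (2 * Real.pi) = f 0) : HasWind f 0 :=
  hasWind_slit hf (fun θ => Or.inl (hs θ)) hp

theorem hasWind_im_ne {f : ℝ → ℂ} (hf : Continuous f) (hs : ∀ θ, (f θ).im ≠ 0)
    (hp : f (2 * Real.pi) = f 0) : HasWind f 0 :=
  hasWind_slit hf (fun θ => Or.inr (hs θ)) hp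

/-- Perturbation: if `Re (f / g) > 0` then `f` and `g` have the same winding. -/
theorem HasWind.of_re_pos {f g : ℝ → ℂ} {n : ℤ} (hg : HasWind g n) (cf : Continuous f)
    (cg : Continuous g) (h0 : ∀ θ, g θ ≠ 0) (h : ∀ θ, 0 < (f θ * (starRingEnd ℂ) (g θ)).re)
    (pf : f (2 * Real.pi) = f 0) (pg : g (2 * Real.pi) = g 0) : HasWind f n := by
  have h1 : HasWind (fun θ => f θ * (g θ)⁻¹) 0 := by
    refine hasWind_re_pos (cf.mul (cg.inv₀ h0)) (fun θ => ?_) (by rw [pf, pg])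
    have h2 : f θ * (g θ)⁻¹ = (f θ * (starRingEnd ℂ) (g θ)) * (((normSq (g θ))⁻¹ : ℝ) : ℂ) := by
      rw [Complex.inv_def]
      push_cast
      ring
    rw [h2, Complex.re_mul_ofReal]
    have : 0 < normSq (g θ) := Complex.normSq_pos.mpr (h0 θ)
    exact mul_pos (h θ) (inv_pos.mpr this)
  have h3 := h1.mul hg
  rw [zero_add] at h3
  refine h3.congr (fun θ => ?_)
  rw [mul_assoc, inv_mul_cancel₀ (h0 θ), mul_one]

theorem norm_add_sq_sub (a : ℂ) : ‖I + a‖ ^ 2 - ‖I - a‖ ^ 2 = 4 * a.im := by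
  rw [← Complex.normSq_eq_norm_sq, ← Complex.normSq_eq_norm_sq, Complex.normSq_apply,
    Complex.normSq_apply]
  simp
  ring

theorem one_add_re_pos {w : ℂ} (h : ‖w‖ < 1) : 0 < (1 + w).re := by
  have := (abs_le.mp (Complex.abs_re_le_norm w)).1
  rw [Complex.add_re, Complex.one_re]
  linarith

theorem exp_neg_mul_I' (θ : ℝ) : exp (-((θ : ℂ) * I)) = (Real.cos θ : ℂ) - (Real.sin θ : ℂ) * I := by
  rw [← neg_mul, exp_mul_I, Complex.cos_neg, Complex.sin_neg, ← ofReal_cos, ← ofReal_sin]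
  ring

theorem ellipse_eq (a : ℂ) (θ : ℝ) : (Real.sin θ : ℂ) - a * (Real.cos θ : ℂ) =
    -((I + a) / 2) * exp ((θ : ℂ) * I) + ((I - a) / 2) * exp (-(θ : ℂ) * I) := by
  rw [neg_mul (θ : ℂ) I, exp_neg_mul_I' θ]
  rw [exp_mul_I, ← ofReal_cos, ← ofReal_sin]
  linear_combination (Real.sin θ : ℂ) * I_mul_I

theorem periodic_exp (n : ℤ) : exp (((n * (2 * Real.pi) : ℝ) : ℂ) * I) = exp (((n * (0 : ℝ) : ℝ) : ℂ) * I) := by
  rw [mul_zero]
  push_cast
  rw [zero_mul, exp_zero]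
  have := Complex.exp_int_mul_two_pi_mul_I n
  rw [← this]
  congr 1
  ring

/-- The ellipse `sin θ - a cos θ` winds once if `Im a > 0`. -/
theorem hasWind_ellipse_pos {a : ℂ} (ha : 0 < a.im) :
    HasWind (fun θ => (Real.sin θ : ℂ) - a * (Real.cos θ : ℂ)) 1 := by
  have h0 := norm_add_sq_sub a
  have hlt : ‖I - a‖ < ‖I + a‖ := by
    apply lt_of_pow_lt_pow_left₀ 2 (norm_nonneg _)
    linarith
  have hpos : 0 < ‖I + a‖ := lt_of_le_of_lt (norm_nonneg _) hlt
  have hne : I + a ≠ 0 := norm_pos_iff.mp hpos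
  have h1 : HasWind (fun θ : ℝ => 1 + (-((I - a) / (I + a))) * exp (((-2 : ℤ) * θ : ℝ) * I)) 0 := by
    refine hasWind_re_pos (by fun_prop) (fun θ => one_add_re_pos ?_) ?_
    · rw [norm_mul, Complex.norm_exp_ofReal_mul_I, mul_one, norm_neg, norm_div, div_lt_one hpos]
      exact hlt
    · rw [periodic_exp (-2)]
  have h2 := ((hasWind_const (c := -((I + a) / 2))).mul (hasWind_exp 1)).mul h1
  rw [zero_add, add_zero] at h2
  refine h2.congr (fun θ => ?_)
  rw [ellipse_eq]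
  have e1 : exp (((-2 : ℤ) * θ : ℝ) * I) = exp (-(θ : ℂ) * I) * exp (-(θ : ℂ) * I) := by
    rw [← exp_add]; congr 1; push_cast; ring
  have e2 : exp (((1 : ℤ) * θ : ℝ) * I) = exp ((θ : ℂ) * I) := by
    congr 1; push_cast; ring
  have e3 : exp ((θ : ℂ) * I) * exp (-(θ : ℂ) * I) = 1 := by
    rw [← exp_add]; simp
  rw [e1, e2]
  have e4 : (I + a) / 2 * ((I - a) / (I + a)) = (I - a) / 2 := by
    field_simp
  linear_combination ((I + a) / 2 * ((I - a) / (I + a)) * exp (-(θ : ℂ) * I)) * e3 +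
    (exp (-(θ : ℂ) * I)) * e4

/-- The ellipse `sin θ - a cos θ` winds minus once if `Im a < 0`. -/
theorem hasWind_ellipse_neg {a : ℂ} (ha : a.im < 0) :
    HasWind (fun θ => (Real.sin θ : ℂ) - a * (Real.cos θ : ℂ)) (-1) := by
  have h0 := norm_add_sq_sub a
  have hlt : ‖I + a‖ < ‖I - a‖ := by
    apply lt_of_pow_lt_pow_left₀ 2 (norm_nonneg _)
    linarith
  have hpos : 0 < ‖I - a‖ := lt_of_le_of_lt (norm_nonneg _) hlt
  have hne : I - a ≠ 0 := norm_pos_iff.mp hpos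
  have h1 : HasWind (fun θ : ℝ => 1 + (-((I + a) / (I - a))) * exp (((2 : ℤ) * θ : ℝ) * I)) 0 := by
    refine hasWind_re_pos (by fun_prop) (fun θ => one_add_re_pos ?_) ?_
    · rw [norm_mul, Complex.norm_exp_ofReal_mul_I, mul_one, norm_neg, norm_div, div_lt_one hpos]
      exact hlt
    · rw [periodic_exp 2]
  have h2 := ((hasWind_const (c := (I - a) / 2)).mul (hasWind_exp (-1))).mul h1
  rw [zero_add, add_zero] at h2
  refine h2.congr (fun θ => ?_)
  rw [ellipse_eq]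
  have e1 : exp (((2 : ℤ) * θ : ℝ) * I) = exp ((θ : ℂ) * I) * exp ((θ : ℂ) * I) := by
    rw [← exp_add]; congr 1; push_cast; ring
  have e2 : exp (((-1 : ℤ) * θ : ℝ) * I) = exp (-(θ : ℂ) * I) := by
    congr 1; push_cast; ring
  have e3 : exp ((θ : ℂ) * I) * exp (-(θ : ℂ) * I) = 1 := by
    rw [← exp_add]; simp
  rw [e1, e2]
  have e4 : (I - a) / 2 * ((I + a) / (I - a)) = (I + a) / 2 := by
    field_simp
  linear_combination (-((I - a) / 2 * ((I + a) / (I - a)) * exp ((θ : ℂ) * I))) * e3 -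
    (exp ((θ : ℂ) * I)) * e4

end Pool.Agent.H99.Loewner
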