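import Mathlib
import Pool.Agent.H99.Loewner.Func
import Pool.Agent.H99.Loewner.Wind

/-!
Assembly: a smooth function with an isolated umbilic of index 3/2.
-/

set_option autoImplicit false

namespace Pool.Agent.H99.Loewner

open Complex Set Filter Topology Metric
open scoped ContDiff

/-- the concrete data -/
noncomputable def D0 : Data where
  γ := gam
  p1 := -(3 / 4) * I
  p2 := 1 / 2 + 2 * I
  A1 := -(3 / 4)
  A2 := 2
  h1 := by
    have : (-(3 / 4) * I : ℂ) = ((-(3 / 4) : ℝ) : ℂ) * I := by push_cast; ring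
    rw [this, Complex.im_ofReal_mul]; simp
  h2 := by simp

theorem D0_p1_im : D0.p1.im < 0 := by
  have : (-(3 / 4) * I : ℂ) = ((-(3 / 4) : ℝ) : ℂ) * I := by push_cast; ring
  change (-(3 / 4) * I : ℂ).im < 0
  rw [this, Complex.im_ofReal_mul]; simp

theorem D0_p2_im : 0 < D0.p2.im := by
  change 0 < (1 / 2 + 2 * I : ℂ).im
  simp

theorem gam_re : 0 < gam.re := by
  have : gam = ((1 / 4 : ℝ) : ℂ) + ((1 : ℝ) : ℂ) * I := by rw [gam]; push_cast; ring
  rw [this]; simp

theorem XL_D0 (a b : ℂ) : XL D0 a b = X0 a b := by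
  rw [XL, X0]; rfl

theorem YL_D0 (a b : ℂ) : YL D0 a b = -gam * W0 a b := by
  rw [YL, W0]; rfl

theorem gap (s θ : ℝ) : 1 / 200 <
    (XL D0 (ee D0.p1 s θ) (ee D0.p2 s θ) *
      (starRingEnd ℂ) (YL D0 (ee D0.p1 s θ) (ee D0.p2 s θ))).im := by
  rw [XL_D0, YL_D0]
  by_cases hc : Real.cos θ = 0
  · have h1 : ∀ p, ee p s θ = 0 := by
      intro p
      rw [ee, cs, hc]
      simp
    rw [h1, h1]
    have e : X0 0 0 * (starRingEnd ℂ) (-gam * W0 0 0) = ((17 / 16 : ℝ) : ℂ) * (I * gam) := by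
      have e1 : (starRingEnd ℂ) gam = (1 - 4 * I) / 4 := by
        rw [gam]
        simp [map_ofNat]
        ring
      rw [X0, W0, gam_sq]
      simp only [map_neg, map_mul, e1, map_add, Complex.conj_I]
      rw [gam]
      push_cast
      simp
      ring_nf
      simp only [I_sq, show I ^ 3 = -I from I_pow_three]
      ring
    rw [e, Complex.im_ofReal_mul]
    have : (I * gam).im = 1 / 4 := by
      have : gam = ((1 / 4 : ℝ) : ℂ) + ((1 : ℝ) : ℂ) * I := by rw [gam]; push_cast; ring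
      rw [this]; simp
    rw [this]
    norm_num
  · obtain ⟨v, hv⟩ : ∃ v : ℝ, v = Real.exp (4 * s) * Real.cos θ := ⟨_, rfl⟩
    have hv0 : v ≠ 0 := by
      rw [hv]; exact mul_ne_zero (Real.exp_pos _).ne' hc
    obtain ⟨t, ht⟩ : ∃ t : ℝ, t = Real.sin θ / v := ⟨_, rfl⟩
    have hS : Real.sin θ = t * v := by rw [ht]; field_simp
    have hvC : (v : ℂ) ≠ 0 := by exact_mod_cast hv0
    have key : ∀ p : ℂ, p.im ≠ 0 → ee p s θ = 1 / ((t : ℂ) - p) := by
      intro p hp
      have h1 : ell p s θ = (v : ℂ) * ((t : ℂ) - p) := by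
        rw [ell, sn, hS, ex, cs, mul_assoc, ← Complex.ofReal_mul, ← hv]
        push_cast
        ring
      have h2 : cs θ * ex s = (v : ℂ) := by
        rw [cs, ex, hv]; push_cast; ring
      have h3 := ell_ne hp s θ
      rw [h1] at h3
      have h4 := (mul_ne_zero_iff.mp h3).2
      rw [ee, h1, ← mul_div_assoc, h2]
      field_simp
    have k1 : ee D0.p1 s θ = 4 / d1 t := by
      rw [key _ D0.h1]
      have : d1 t = 4 * ((t : ℂ) - D0.p1) := by
        change d1 t = 4 * ((t : ℂ) - -(3 / 4) * I)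
        rw [d1]
        apply Complex.ext <;> simp
        norm_num
      have h3 := d1_ne t
      rw [this] at h3 ⊢
      have h4 := (mul_ne_zero_iff.mp h3).2
      field_simp
    have k2 : ee D0.p2 s θ = 2 / d2 t := by
      rw [key _ D0.h2]
      have : d2 t = 2 * ((t : ℂ) - D0.p2) := by
        change d2 t = 2 * ((t : ℂ) - (1 / 2 + 2 * I))
        rw [d2]
        apply Complex.ext <;> simp <;> ring
      have h3 := d2_ne t
      rw [this] at h3 ⊢
      have h4 := (mul_ne_zero_iff.mp h3).2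
      field_simp
    rw [k1, k2]
    exact main_t t

/-! ### continuity and periodicity in the angle -/

theorem cont_cs : Continuous cs := by unfold cs; fun_prop
theorem cont_sn : Continuous sn := by unfold sn; fun_prop
theorem cs_two_pi : cs (2 * Real.pi) = cs 0 := by simp [cs]
theorem sn_two_pi : sn (2 * Real.pi) = sn 0 := by simp [sn]

theorem cont_ell (p : ℂ) (s : ℝ) : Continuous (fun θ => ell p s θ) := by
  unfold ell
  exact cont_sn.sub (continuous_const.mul cont_cs)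

theorem ell_two_pi (p : ℂ) (s : ℝ) : ell p s (2 * Real.pi) = ell p s 0 := by
  rw [ell, ell, cs_two_pi, sn_two_pi]

section
variable {p : ℂ} (hp : p.im ≠ 0) (s : ℝ)
include hp

theorem cont_h0 : Continuous (fun θ => h0 p s θ) := by
  unfold h0
  exact (continuous_const.mul cont_cs).div (cont_ell p s) (fun θ => ell_ne hp s θ)

theorem cont_ht : Continuous (fun θ => ht p s θ) := by
  unfold ht
  exact (continuous_const.div ((cont_ell p s).pow 2) (fun θ => pow_ne_zero 2 (ell_ne hp s θ))).neg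

theorem cont_htt : Continuous (fun θ => htt p s θ) := by
  unfold htt
  exact (continuous_const.mul (cont_cs.add (continuous_const.mul cont_sn))).div
    ((cont_ell p s).pow 3) (fun θ => pow_ne_zero 3 (ell_ne hp s θ))

theorem cont_hs : Continuous (fun θ => hs p s θ) := by
  unfold hs
  exact ((continuous_const.mul cont_cs).div (cont_ell p s) (fun θ => ell_ne hp s θ)).add
    ((continuous_const.mul (cont_cs.pow 2)).div ((cont_ell p s).pow 2)
      (fun θ => pow_ne_zero 2 (ell_ne hp s θ)))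

theorem cont_hss : Continuous (fun θ => hss p s θ) := by
  unfold hss
  exact (((continuous_const.mul cont_cs).div (cont_ell p s) (fun θ => ell_ne hp s θ)).add
    ((continuous_const.mul (cont_cs.pow 2)).div ((cont_ell p s).pow 2)
      (fun θ => pow_ne_zero 2 (ell_ne hp s θ)))).add
    ((continuous_const.mul (cont_cs.pow 3)).div ((cont_ell p s).pow 3)
      (fun θ => pow_ne_zero 3 (ell_ne hp s θ)))

theorem cont_hst : Continuous (fun θ => hst p s θ) := by
  unfold hst
  exact ((continuous_const.div ((cont_ell p s).pow 2)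
      (fun θ => pow_ne_zero 2 (ell_ne hp s θ))).neg).sub
    ((continuous_const.mul cont_cs).div ((cont_ell p s).pow 3)
      (fun θ => pow_ne_zero 3 (ell_ne hp s θ)))

theorem cont_ee : Continuous (fun θ => ee p s θ) := by
  unfold ee
  exact cont_cs.mul (continuous_const.div (cont_ell p s) (fun θ => ell_ne hp s θ))
end

theorem cont_cmb (D : Data) {f : ℂ → ℝ → ℝ → ℂ}
    (h : ∀ {p : ℂ}, p.im ≠ 0 → ∀ s, Continuous (fun θ => f p s θ)) (s : ℝ) :
    Continuous (fun θ => cmb D f s θ) := by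
  unfold cmb
  exact (continuous_const.mul (h D.h1 s)).add (continuous_const.mul (h D.h2 s))

theorem cont_XX (D : Data) (s : ℝ) : Continuous (fun θ => XX D s θ) := by
  unfold XX
  exact ((((continuous_const.mul (continuous_const.add (cont_cmb D cont_h0 s))).add
    (continuous_const.mul (cont_cmb D cont_hs s))).add (cont_cmb D cont_hss s)).add
    (continuous_const.mul (cont_cmb D cont_ht s))).sub (cont_cmb D cont_htt s)

theorem cont_YY (D : Data) (s : ℝ) : Continuous (fun θ => YY D s θ) := by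
  unfold YY
  exact ((continuous_const.mul ((continuous_const.mul (continuous_const.add
    (cont_cmb D cont_h0 s))).add (cont_cmb D cont_ht s))).sub
    (continuous_const.mul (cont_cmb D cont_hs s))).add (cont_cmb D cont_hst s)

theorem cont_YL (D : Data) (s : ℝ) :
    Continuous (fun θ => YL D (ee D.p1 s θ) (ee D.p2 s θ)) := by
  unfold YL
  exact continuous_const.mul (continuous_const.add ((continuous_const.mul
    ((cont_ee D.h1 s).pow 2)).add (continuous_const.mul ((cont_ee D.h2 s).pow 2))))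

theorem XX_two_pi (D : Data) (s : ℝ) : XX D s (2 * Real.pi) = XX D s 0 := by
  simp only [XX, cmb, h0, hs, hss, ht, htt, ell_two_pi, cs_two_pi, sn_two_pi]

theorem YY_two_pi (D : Data) (s : ℝ) : YY D s (2 * Real.pi) = YY D s 0 := by
  simp only [YY, cmb, h0, hs, hst, ht, ell_two_pi, cs_two_pi]

theorem YL_two_pi (D : Data) (s : ℝ) : YL D (ee D.p1 s (2 * Real.pi)) (ee D.p2 s (2 * Real.pi)) =
    YL D (ee D.p1 s 0) (ee D.p2 s 0) := by
  simp only [ee, ell_two_pi, cs_two_pi]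

/-! ### the winding of the limit curve -/

/-- homogeneous numerator -/
noncomputable def PWh (S v : ℂ) : ℂ :=
  I * ((4 * S + 3 * I * v) ^ 2 * (2 * S - (1 + 4 * I) * v) ^ 2)
    - 12 * v ^ 2 * (2 * S - (1 + 4 * I) * v) ^ 2 + 8 * v ^ 2 * (4 * S + 3 * I * v) ^ 2

/-- comparison product -/
noncomputable def PHh (S v : ℂ) : ℂ :=
  I * (((2 * S + (-1 + 3 * I) * v) * (2 * S + (-3 - 6 * I) * v)) *
    ((4 * S + (2 - 3 * I) * v) * (8 * S + (5 - I) * v)))

theorem PWh_eq (t v : ℝ) : PWh ((t * v : ℝ) : ℂ) (v : ℂ) = (v : ℂ) ^ 4 * PW t := by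
  have e1 : d1 t = 4 * (t : ℂ) + 3 * I := by
    rw [d1]; apply Complex.ext <;> simp
  have e2 : d2 t = 2 * (t : ℂ) - 1 - 4 * I := by
    rw [d2]; apply Complex.ext <;> simp
  rw [PWh, PW, e1, e2]
  push_cast
  ring

theorem PHh_eq (t v : ℝ) : PHh ((t * v : ℝ) : ℂ) (v : ℂ) = (v : ℂ) ^ 4 * PH t := by
  have e1 : (⟨2 * t - 1, 3⟩ : ℂ) = 2 * (t : ℂ) - 1 + 3 * I := by
    apply Complex.ext <;> simp
  have e2 : (⟨2 * t - 3, -6⟩ : ℂ) = 2 * (t : ℂ) - 3 - 6 * I := by
    apply Complex.ext <;> simp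
  have e3 : (⟨4 * t + 2, -3⟩ : ℂ) = 4 * (t : ℂ) + 2 - 3 * I := by
    apply Complex.ext <;> simp
  have e4 : (⟨8 * t + 5, -1⟩ : ℂ) = 8 * (t : ℂ) + 5 - I := by
    apply Complex.ext <;> simp
  rw [PHh, PH, e1, e2, e3, e4]
  push_cast
  ring

theorem PWh_PHh {S v : ℝ} (h : S ≠ 0 ∨ v ≠ 0) : 0 < (PWh S v * (starRingEnd ℂ) (PHh S v)).re := by
  by_cases hv : v = 0
  · subst hv
    have hS : S ≠ 0 := by tauto
    have e : PWh S ((0 : ℝ) : ℂ) * (starRingEnd ℂ) (PHh S ((0 : ℝ) : ℂ)) =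
        ((8192 * S ^ 8 : ℝ) : ℂ) := by
      rw [PWh, PHh]
      simp only [map_mul, Complex.conj_I, Complex.ofReal_zero, mul_zero, add_zero, sub_zero,
        Complex.conj_ofReal, map_ofNat]
      push_cast
      linear_combination (-(8192 * (S : ℂ) ^ 8)) * I_mul_I
    rw [e, Complex.ofReal_re]
    have : 0 < S ^ 8 := by positivity
    linarith
  · obtain ⟨t, ht⟩ : ∃ t : ℝ, S = t * v := ⟨S / v, by field_simp⟩
    rw [ht, PWh_eq, PHh_eq, map_mul, map_pow, Complex.conj_ofReal]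
    have e : (v : ℂ) ^ 4 * PW t * ((v : ℂ) ^ 4 * (starRingEnd ℂ) (PH t)) =
        ((v ^ 8 : ℝ) : ℂ) * (PW t * (starRingEnd ℂ) (PH t)) := by
      push_cast; ring
    rw [e, Complex.re_ofReal_mul]
    exact mul_pos (by positivity) (PW_PH t)

theorem ell_two (p : ℂ) (s : ℝ) : (fun θ => ell p s θ) =
    fun θ => (Real.sin θ : ℂ) - (p * ex s) * (Real.cos θ : ℂ) := by
  funext θ
  rw [ell, sn, cs]

theorem im_mul_ex (p : ℂ) (s : ℝ) : (p * ex s).im = p.im * Real.exp (4 * s) := by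
  rw [ex, Complex.im_mul_ofReal]

theorem wind_ell_pos {p : ℂ} (hp : 0 < p.im) (s : ℝ) : HasWind (fun θ => ell p s θ) 1 := by
  rw [ell_two]
  apply hasWind_ellipse_pos
  rw [im_mul_ex]
  exact mul_pos hp (Real.exp_pos _)

theorem wind_ell_neg {p : ℂ} (hp : p.im < 0) (s : ℝ) : HasWind (fun θ => ell p s θ) (-1) := by
  rw [ell_two]
  apply hasWind_ellipse_neg
  rw [im_mul_ex]
  exact mul_neg_of_neg_of_pos hp (Real.exp_pos _)

theorem HasWind.const_mul {f : ℝ → ℂ} {m : ℤ} (hf : HasWind f m) (c : ℂ) :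
    HasWind (fun θ => c * f θ) m := by
  have := (hasWind_const (c := c)).mul hf
  rwa [zero_add] at this

theorem wind_PHh (s : ℝ) : HasWind (fun θ => PHh (sn θ) (ex s * cs θ)) 2 := by
  have w1 := wind_ell_neg (p := (1 - 3 * I) / 2) (by
    have : ((1 - 3 * I) / 2 : ℂ) = ((1 / 2 : ℝ) : ℂ) + ((-(3 / 2) : ℝ) : ℂ) * I := by
      push_cast; ring
    rw [this]; simp) s
  have w2 := wind_ell_pos (p := (3 + 6 * I) / 2) (by
    have : ((3 + 6 * I) / 2 : ℂ) = ((3 / 2 : ℝ) : ℂ) + ((3 : ℝ) : ℂ) * I := by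
      push_cast; ring
    rw [this]; simp) s
  have w3 := wind_ell_pos (p := (-2 + 3 * I) / 4) (by
    have : ((-2 + 3 * I) / 4 : ℂ) = ((-(1 / 2) : ℝ) : ℂ) + ((3 / 4 : ℝ) : ℂ) * I := by
      push_cast; ring
    rw [this]; simp) s
  have w4 := wind_ell_pos (p := (-5 + I) / 8) (by
    have : ((-5 + I) / 8 : ℂ) = ((-(5 / 8) : ℝ) : ℂ) + ((1 / 8 : ℝ) : ℂ) * I := by
      push_cast; ring
    rw [this]; simp) s
  have w := ((w1.mul w2).mul (w3.mul w4)).const_mul (128 * I)
  refine HasWind.congr (fun θ => ?_) w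
  rw [PHh, ell, ell, ell, ell]
  ring

theorem PWh_ne {S v : ℝ} (h : S ≠ 0 ∨ v ≠ 0) : PWh S v ≠ 0 := by
  intro h0
  have := PWh_PHh h
  rw [h0] at this
  simp at this

theorem PHh_ne {S v : ℝ} (h : S ≠ 0 ∨ v ≠ 0) : PHh S v ≠ 0 := by
  intro h0
  have := PWh_PHh h
  rw [h0] at this
  simp at this

theorem sin_or_cos (s θ : ℝ) : Real.sin θ ≠ 0 ∨ Real.exp (4 * s) * Real.cos θ ≠ 0 := by
  by_contra hcon
  push Not at hcon
  have h2 : Real.cos θ = 0 := by
    rcases mul_eq_zero.mp hcon.2 with h | h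
    · exact absurd h (Real.exp_pos _).ne'
    · exact h
  have := Real.cos_sq_add_sin_sq θ
  rw [h2, hcon.1] at this
  norm_num at this

theorem cast_form (s θ : ℝ) : (sn θ = ((Real.sin θ : ℝ) : ℂ)) ∧
    ex s * cs θ = ((Real.exp (4 * s) * Real.cos θ : ℝ) : ℂ) := by
  constructor
  · rfl
  · rw [ex, cs]; push_cast; ring

theorem cont_PWh (s : ℝ) : Continuous (fun θ => PWh (sn θ) (ex s * cs θ)) := by
  have c1 := cont_cs
  have c2 := cont_sn
  unfold PWh
  fun_prop

theorem cont_PHh (s : ℝ) : Continuous (fun θ => PHh (sn θ) (ex s * cs θ)) := by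
  have c1 := cont_cs
  have c2 := cont_sn
  unfold PHh
  fun_prop

theorem wind_PWh (s : ℝ) : HasWind (fun θ => PWh (sn θ) (ex s * cs θ)) 2 := by
  refine (wind_PHh s).of_re_pos (cont_PWh s) (cont_PHh s) (fun θ => ?_) (fun θ => ?_) ?_ ?_
  · rw [(cast_form s θ).1, (cast_form s θ).2]
    exact PHh_ne (sin_or_cos s θ)
  · rw [(cast_form s θ).1, (cast_form s θ).2]
    exact PWh_PHh (sin_or_cos s θ)
  · rw [cs_two_pi, sn_two_pi]
  · rw [cs_two_pi, sn_two_pi]

theorem YL_form (s θ : ℝ) : YL D0 (ee D0.p1 s θ) (ee D0.p2 s θ) =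
    -gam / 64 * (PWh (sn θ) (ex s * cs θ) *
      ((ell D0.p1 s θ * ell D0.p1 s θ) * (ell D0.p2 s θ * ell D0.p2 s θ))⁻¹) := by
  have n1 := ell_ne D0.h1 s θ
  have n2 := ell_ne D0.h2 s θ
  have e1 : 4 * sn θ + 3 * I * (ex s * cs θ) = 4 * ell D0.p1 s θ := by
    rw [ell]
    change _ = 4 * (sn θ - (-(3 / 4) * I) * ex s * cs θ)
    ring
  have e2 : 2 * sn θ - (1 + 4 * I) * (ex s * cs θ) = 2 * ell D0.p2 s θ := by
    rw [ell]
    change _ = 2 * (sn θ - (1 / 2 + 2 * I) * ex s * cs θ)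
    ring
  rw [YL_D0, W0, PWh, e1, e2, ee, ee]
  field_simp
  ring

theorem wind_YL (s : ℝ) : HasWind (fun θ => YL D0 (ee D0.p1 s θ) (ee D0.p2 s θ)) 2 := by
  have w1 := wind_ell_neg D0_p1_im s
  have w2 := wind_ell_pos D0_p2_im s
  have w := ((wind_PWh s).mul (((w1.mul w1).mul (w2.mul w2)).inv)).const_mul (-gam / 64)
  exact w.congr (fun θ => (YL_form s θ).symm)

end Pool.Agent.H99.Loewner
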