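import Mathlib
import Pool.Agent.H99.Loewner.Final

/-!
Loewner's conjecture (N = 2) fails for smooth functions.
-/

set_option autoImplicit false

namespace Pool.Agent.H99.Loewner

open Complex Set Filter Topology Metric
open scoped ContDiff

/-- abbreviation for the limit values along the circle -/
noncomputable def XLs (s θ : ℝ) : ℂ := XL D0 (ee D0.p1 s θ) (ee D0.p2 s θ)
noncomputable def YLs (s θ : ℝ) : ℂ := YL D0 (ee D0.p1 s θ) (ee D0.p2 s θ)

theorem small : ∃ s1 : ℝ, s1 ≤ 0 ∧ ∀ s θ : ℝ, s < s1 →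
    0 < ((rr s ^ 2 * XX D0 s θ) * (starRingEnd ℂ) (rr s * YY D0 s θ)).im ∧
    0 < ((rr s * YY D0 s θ) * (starRingEnd ℂ) (YLs s θ)).re := by
  obtain ⟨K, hK, H⟩ := exists_bounds D0
  refine ⟨min 0 (Real.log (1 / (200 * (3 * K ^ 2 + 1))) / 2), min_le_left _ _, fun s θ hs => ?_⟩
  have hs0 : s ≤ 0 := (hs.trans_le (min_le_left _ _)).le
  have hs1 : s < Real.log (1 / (200 * (3 * K ^ 2 + 1))) / 2 := hs.trans_le (min_le_right _ _)
  have hρ : ‖rr s‖ < 1 / (200 * (3 * K ^ 2 + 1)) := by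
    rw [rr, Complex.norm_real, Real.norm_eq_abs, Real.abs_exp, ← Real.lt_log_iff_exp_lt (by positivity)]
    linarith
  have hρ1 : ‖rr s‖ ≤ 1 := norm_rr_le hs0
  have hρ2 : ‖rr s‖ * (3 * K ^ 2) < 1 / 200 := by
    rw [lt_div_iff₀ (by positivity)] at hρ
    have : 0 ≤ ‖rr s‖ := norm_nonneg _
    nlinarith
  obtain ⟨b1, b2, b3, b4⟩ := H s θ hs0
  have g := gap s θ
  have hX := XX_eq D0 s θ
  have hY := YY_eq D0 s θ
  rw [hX, hY]
  change 1 / 200 < (XLs s θ * (starRingEnd ℂ) (YLs s θ)).im at g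
  change ‖XLs s θ‖ ≤ K at b3
  change ‖YLs s θ‖ ≤ K at b4
  change 0 < ((XLs s θ + rr s * RX D0 (vars D0 s θ)) *
    (starRingEnd ℂ) (YLs s θ + rr s * RY D0 (vars D0 s θ))).im ∧
    0 < ((YLs s θ + rr s * RY D0 (vars D0 s θ)) * (starRingEnd ℂ) (YLs s θ)).re
  generalize XLs s θ = x at *
  generalize YLs s θ = y at *
  generalize RX D0 (vars D0 s θ) = u at *
  generalize RY D0 (vars D0 s θ) = v at *
  generalize rr s = ρ at *
  have n0 : 0 ≤ ‖ρ‖ := norm_nonneg _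
  constructor
  · have e : (x + ρ * u) * (starRingEnd ℂ) (y + ρ * v) = x * (starRingEnd ℂ) y +
        (x * (starRingEnd ℂ) (ρ * v) + (ρ * u) * (starRingEnd ℂ) y +
          (ρ * u) * (starRingEnd ℂ) (ρ * v)) := by
      rw [map_add]; ring
    rw [e, Complex.add_im]
    have l1 : ‖x * (starRingEnd ℂ) (ρ * v)‖ ≤ ‖ρ‖ * K ^ 2 := by
      rw [norm_mul, Complex.norm_conj, norm_mul]
      calc ‖x‖ * (‖ρ‖ * ‖v‖) ≤ K * (‖ρ‖ * K) := by gcongr
        _ = _ := by ring
    have l2 : ‖(ρ * u) * (starRingEnd ℂ) y‖ ≤ ‖ρ‖ * K ^ 2 := by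
      rw [norm_mul, Complex.norm_conj, norm_mul]
      calc ‖ρ‖ * ‖u‖ * ‖y‖ ≤ ‖ρ‖ * K * K := by gcongr
        _ = _ := by ring
    have l3 : ‖(ρ * u) * (starRingEnd ℂ) (ρ * v)‖ ≤ ‖ρ‖ * K ^ 2 := by
      rw [norm_mul, Complex.norm_conj, norm_mul, norm_mul]
      calc ‖ρ‖ * ‖u‖ * (‖ρ‖ * ‖v‖) ≤ ‖ρ‖ * K * (1 * K) := by gcongr
        _ = _ := by ring
    have l4 := Complex.abs_im_le_norm (x * (starRingEnd ℂ) (ρ * v) + (ρ * u) * (starRingEnd ℂ) y +
          (ρ * u) * (starRingEnd ℂ) (ρ * v))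
    have l5 : ‖x * (starRingEnd ℂ) (ρ * v) + (ρ * u) * (starRingEnd ℂ) y +
          (ρ * u) * (starRingEnd ℂ) (ρ * v)‖ ≤ ‖ρ‖ * (3 * K ^ 2) := by
      refine (norm_add₃_le).trans ?_
      linarith
    have l6 := (abs_le.mp l4).1
    linarith
  · have hy : ‖ρ‖ * K < ‖y‖ := by
      by_contra hcon
      push Not at hcon
      have l1 := Complex.abs_im_le_norm (x * (starRingEnd ℂ) y)
      rw [norm_mul, Complex.norm_conj] at l1
      have l2 := (abs_le.mp l1).2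
      have l3 : ‖x‖ * ‖y‖ ≤ K * (‖ρ‖ * K) := by gcongr
      have l4 : 0 ≤ ‖ρ‖ * K ^ 2 := by positivity
      nlinarith
    have e : (y + ρ * v) * (starRingEnd ℂ) y = ((‖y‖ ^ 2 : ℝ) : ℂ) + (ρ * v) * (starRingEnd ℂ) y := by
      rw [add_mul, Complex.mul_conj, Complex.normSq_eq_norm_sq]
    rw [e, Complex.add_re, Complex.ofReal_re]
    have l1 := Complex.abs_re_le_norm ((ρ * v) * (starRingEnd ℂ) y)
    have l2 := (abs_le.mp l1).1
    have l3 : ‖(ρ * v) * (starRingEnd ℂ) y‖ ≤ (‖ρ‖ * K) * ‖y‖ := by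
      rw [norm_mul, Complex.norm_conj, norm_mul]
      gcongr
    have l4 : 0 ≤ ‖ρ‖ * K := by positivity
    nlinarith

/-! ### from complex pairs to the real quadratic differential -/

/-- `Re x + i Re y` -/
noncomputable def NN (x y : ℂ) : ℂ := ((x.re : ℝ) : ℂ) + ((y.re : ℝ) : ℂ) * I

theorem NN_ne {x y : ℂ} (h : 0 < (x * (starRingEnd ℂ) y).im) : NN x y ≠ 0 := by
  intro h0
  have h1 : (NN x y).re = 0 := by rw [h0]; simp
  have h2 : (NN x y).im = 0 := by rw [h0]; simp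
  simp [NN] at h1 h2
  simp [h1, h2] at h

theorem HasWind.of_im_pos {f g : ℝ → ℂ} {n : ℤ} (hg : HasWind g n) (cf : Continuous f)
    (cg : Continuous g) (h0 : ∀ θ, g θ ≠ 0) (h : ∀ θ, 0 < (f θ * (starRingEnd ℂ) (g θ)).im)
    (pf : f (2 * Real.pi) = f 0) (pg : g (2 * Real.pi) = g 0) : HasWind f n := by
  have h1 : HasWind (fun θ => f θ * (g θ)⁻¹) 0 := by
    refine hasWind_im_ne (cf.mul (cg.inv₀ h0)) (fun θ => ?_) (by rw [pf, pg])
    have h2 : f θ * (g θ)⁻¹ = (f θ * (starRingEnd ℂ) (g θ)) * (((normSq (g θ))⁻¹ : ℝ) : ℂ) := by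
      rw [Complex.inv_def]
      push_cast
      ring
    rw [h2, Complex.im_mul_ofReal]
    have : 0 < normSq (g θ) := Complex.normSq_pos.mpr (h0 θ)
    exact (mul_pos (h θ) (inv_pos.mpr this)).ne'
  have h3 := h1.mul hg
  rw [zero_add] at h3
  refine h3.congr (fun θ => ?_)
  rw [mul_assoc, inv_mul_cancel₀ (h0 θ), mul_one]

theorem wind_NN {x y : ℝ → ℂ} {n : ℤ} (hy : HasWind y n) (cx : Continuous x) (cy : Continuous y)
    (h : ∀ θ, 0 < (x θ * (starRingEnd ℂ) (y θ)).im)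
    (px : x (2 * Real.pi) = x 0) (py : y (2 * Real.pi) = y 0) :
    HasWind (fun θ => NN (x θ) (y θ)) n := by
  have y0 : ∀ θ, y θ ≠ 0 := by
    intro θ h0
    have := h θ
    rw [h0] at this
    simp at this
  have h1 : HasWind (fun θ => x θ + I * y θ) n := by
    refine hy.of_im_pos (by fun_prop) cy y0 (fun θ => ?_) (by rw [px, py]) py
    have e : (x θ + I * y θ) * (starRingEnd ℂ) (y θ) = x θ * (starRingEnd ℂ) (y θ) +
        ((normSq (y θ) : ℝ) : ℂ) * I := by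
      rw [add_mul, mul_assoc, Complex.mul_conj]; ring
    rw [e, Complex.add_im, Complex.im_ofReal_mul, Complex.I_im, mul_one]
    have := normSq_pos.mpr (y0 θ)
    have := h θ
    linarith
  have h2 : ∀ θ, x θ + I * y θ ≠ 0 := by
    intro θ h0
    have h3 : 0 < ((x θ + I * y θ) * (starRingEnd ℂ) (y θ)).im := by
      have e : (x θ + I * y θ) * (starRingEnd ℂ) (y θ) = x θ * (starRingEnd ℂ) (y θ) +
          ((normSq (y θ) : ℝ) : ℂ) * I := by
        rw [add_mul, mul_assoc, Complex.mul_conj]; ring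
      rw [e, Complex.add_im, Complex.im_ofReal_mul, Complex.I_im, mul_one]
      have := normSq_pos.mpr (y0 θ)
      have := h θ
      linarith
    rw [h0] at h3
    simp at h3
  have cN : Continuous (fun θ => NN (x θ) (y θ)) := by
    unfold NN
    exact (Complex.continuous_ofReal.comp (Complex.continuous_re.comp cx)).add
      ((Complex.continuous_ofReal.comp (Complex.continuous_re.comp cy)).mul continuous_const)
  refine h1.of_re_pos cN (by fun_prop) h2 (fun θ => ?_) ?_ ?_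
  · have := h θ
    generalize x θ = a at *
    generalize y θ = b at *
    simp only [NN, Complex.mul_re, Complex.mul_im, Complex.add_re, Complex.add_im,
      Complex.ofReal_re, Complex.ofReal_im, Complex.I_re, Complex.I_im, Complex.conj_re,
      Complex.conj_im] at this ⊢
    nlinarith [sq_nonneg a.re, sq_nonneg b.re]
  · rw [px, py]
  · rw [px, py]

/-- the real function -/
noncomputable def ff (z : ℂ) : ℝ := (FF D0 z).re

/-- its quadratic differential -/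
noncomputable def QQ (z : ℂ) : ℂ :=
  ((iteratedFDeriv ℝ 2 ff z ![(1 : ℂ), 1] - iteratedFDeriv ℝ 2 ff z ![Complex.I, Complex.I] : ℝ) : ℂ)
            + 2 * ((iteratedFDeriv ℝ 2 ff z ![(1 : ℂ), Complex.I] : ℝ) : ℂ) * Complex.I

theorem QQ_pt (s θ : ℝ) : (starRingEnd ℂ (pt s θ)) ^ 2 * QQ (pt s θ) =
    NN (MM D0 s θ * XX D0 s θ) (2 * (MM D0 s θ * YY D0 s θ)) := by
  have h := Q_formula (G := FF D0) (sm_FF D0) (pt_ne s θ)
  obtain ⟨h1, h2⟩ := FF_XY D0 s θ
  rw [h1, h2] at h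
  exact h

theorem rr_pos_form (s : ℝ) : rr s = ((Real.exp (2 * s) : ℝ) : ℂ) := rfl

theorem im_pos_of_small {s θ : ℝ}
    (h : 0 < ((rr s ^ 2 * XX D0 s θ) * (starRingEnd ℂ) (rr s * YY D0 s θ)).im) :
    0 < ((MM D0 s θ * XX D0 s θ) * (starRingEnd ℂ) (2 * (MM D0 s θ * YY D0 s θ))).im := by
  have e1 : (rr s ^ 2 * XX D0 s θ) * (starRingEnd ℂ) (rr s * YY D0 s θ) =
      ((Real.exp (2 * s) ^ 3 : ℝ) : ℂ) * (XX D0 s θ * (starRingEnd ℂ) (YY D0 s θ)) := by
    rw [map_mul, rr, Complex.conj_ofReal]; push_cast; ring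
  have e2 : (MM D0 s θ * XX D0 s θ) * (starRingEnd ℂ) (2 * (MM D0 s θ * YY D0 s θ)) =
      ((2 * normSq (MM D0 s θ) : ℝ) : ℂ) * (XX D0 s θ * (starRingEnd ℂ) (YY D0 s θ)) := by
    rw [map_mul, map_mul, map_ofNat]
    push_cast
    rw [← Complex.mul_conj]
    ring
  rw [e1, Complex.im_ofReal_mul] at h
  rw [e2, Complex.im_ofReal_mul]
  have h3 : 0 < (XX D0 s θ * (starRingEnd ℂ) (YY D0 s θ)).im := by
    by_contra hcon
    push Not at hcon
    have : 0 < Real.exp (2 * s) ^ 3 := by positivity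
    nlinarith
  have h4 : 0 < normSq (MM D0 s θ) := normSq_pos.mpr (exp_ne_zero _)
  positivity

theorem wind_MM (s : ℝ) : HasWind (fun θ => MM D0 s θ) (-1) := by
  have h := (hasWind_exp (-1)).const_mul (exp ((s : ℂ) - kap D0 s / 2))
  refine h.congr (fun θ => ?_)
  rw [MM, ← exp_add]
  congr 1
  push_cast
  ring

theorem MM_two_pi (s : ℝ) : MM D0 s (2 * Real.pi) = MM D0 s 0 := by
  rw [MM, MM]
  have e : (s : ℂ) - ((2 * Real.pi : ℝ) : ℂ) * I - kap D0 s / 2 =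
      ((s : ℂ) - ((0 : ℝ) : ℂ) * I - kap D0 s / 2) + ((-1 : ℤ) : ℂ) * (2 * Real.pi * I) := by
    push_cast; ring
  rw [e, exp_add, exp_int_mul_two_pi_mul_I, mul_one]

theorem cont_MM (s : ℝ) : Continuous (fun θ => MM D0 s θ) := by
  unfold MM
  fun_prop

theorem wind_QQ {s : ℝ}
    (h : ∀ θ, 0 < ((rr s ^ 2 * XX D0 s θ) * (starRingEnd ℂ) (rr s * YY D0 s θ)).im ∧
      0 < ((rr s * YY D0 s θ) * (starRingEnd ℂ) (YLs s θ)).re) :
    HasWind (fun θ => QQ (pt s θ)) 3 := by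
  have hr : rr s ≠ 0 := by rw [rr]; exact_mod_cast (Real.exp_pos _).ne'
  have cY : Continuous (fun θ => rr s * YY D0 s θ) := continuous_const.mul (cont_YY D0 s)
  have yl0 : ∀ θ, YLs s θ ≠ 0 := by
    intro θ h0
    have := (h θ).2
    rw [h0] at this
    simp at this
  have w1 : HasWind (fun θ => rr s * YY D0 s θ) 2 :=
    HasWind.of_re_pos (wind_YL s) cY (cont_YL D0 s) yl0 (fun θ => (h θ).2)
      (by rw [YY_two_pi]) (YL_two_pi D0 s)
  have w2 : HasWind (fun θ => 2 * (MM D0 s θ * YY D0 s θ)) 1 := by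
    have := ((wind_MM s).mul w1).const_mul (2 / rr s)
    refine HasWind.congr (fun θ => ?_) this
    field_simp
  have w3 : HasWind (fun θ => NN (MM D0 s θ * XX D0 s θ) (2 * (MM D0 s θ * YY D0 s θ))) 1 := by
    refine wind_NN w2 ((cont_MM s).mul (cont_XX D0 s))
      (continuous_const.mul ((cont_MM s).mul (cont_YY D0 s))) (fun θ => im_pos_of_small (h θ).1) ?_ ?_
    · rw [MM_two_pi, XX_two_pi]
    · rw [MM_two_pi, YY_two_pi]
  have w4 : HasWind (fun θ => exp (-2 * (s : ℂ)) * exp (((2 : ℤ) * θ : ℝ) * I)) 2 :=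
    (hasWind_exp 2).const_mul _
  refine HasWind.congr (fun θ => ?_) (w4.mul w3)
  rw [← QQ_pt, ← mul_assoc]
  have e : exp (-2 * (s : ℂ)) * exp (((2 : ℤ) * θ : ℝ) * I) * (starRingEnd ℂ (pt s θ)) ^ 2 = 1 := by
    rw [pt, ← Complex.exp_conj, ← Complex.exp_nat_mul, ← exp_add, ← exp_add, ← Complex.exp_zero]
    congr 1
    simp
    ring
  rw [e, one_mul]

theorem contDiffOn_ff : ContDiffOn ℝ ∞ ff (ball 0 1) :=
  Complex.reCLM.contDiff.comp_contDiffOn (contDiffOn_FF D0 gam_re)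

theorem QQ_zero : QQ 0 = 0 := by
  have hFF := contDiffOn_FF D0 gam_re
  have hat : ContDiffAt ℝ ∞ (FF D0) 0 := hFF.contDiffAt (ball_mem_nhds 0 one_pos)
  have hatf : ContDiffAt ℝ ∞ ff 0 := contDiffOn_ff.contDiffAt (ball_mem_nhds 0 one_pos)
  have hd : DifferentiableAt ℝ (fderiv ℝ ff) 0 :=
    (hatf.fderiv_right (m := ∞) (by simp)).differentiableAt (by simp)
  have hγ : 0 < (D0.γ / 2).re := by
    have : D0.γ / 2 = gam * ((1 / 2 : ℝ) : ℂ) := by
      change gam / 2 = _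
      push_cast; ring
    rw [this, Complex.re_mul_ofReal]
    have := gam_re
    positivity
  have key : ∀ u v : ℂ, iteratedFDeriv ℝ 2 ff 0 ![u, v] = 0 := by
    intro u v
    rw [iteratedFDeriv_two_apply]
    simp only [Matrix.cons_val_zero, Matrix.cons_val_one]
    have h1 : HasFDerivAt (fun z => fderiv ℝ ff z v)
        ((fderiv ℝ (fderiv ℝ ff) 0).flip v) 0 := by
      have := hd.hasFDerivAt.clm_apply (hasFDerivAt_const v (0 : ℂ))
      simpa using this
    have hamp : PG (fun z => fderiv ℝ (amp D0) z v +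
        amp D0 z * fderiv ℝ (fun z => -(D0.γ / 2) * (rho z)⁻¹) z v) := by
      have sc : Sm (fun z => -(D0.γ / 2) * (rho z)⁻¹) := Sm.mul (Sm.const _) sm_inv_rho
      have gc : Good 1 (fun z => -(D0.γ / 2) * (rho z)⁻¹) :=
        Good.mul (Sm.const _) sm_inv_rho (Good.const _ _) (good_inv_rho 1)
      have ga : Good 1 (amp D0) := good_amp D0 1
      have split : ∀ (a : ℂ → ℂ), Good 1 a → PG (fun z => fderiv ℝ a z v) := by
        intro a ha
        have hv : v = (v.re : ℝ) • (1 : ℂ) + (v.im : ℝ) • I := by simp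
        have : (fun z => fderiv ℝ a z v) = fun z => ((v.re : ℝ) : ℂ) * dx a z + ((v.im : ℝ) : ℂ) * dy a z := by
          funext z
          conv_lhs => rw [hv]
          rw [map_add, map_smul, map_smul]
          simp [dx, dy]
        rw [this]
        exact PG.add ((PG.const _).mul ha.2.1.pg) ((PG.const _).mul ha.2.2.pg)
      exact (split _ ga).add (ga.pg.mul (split _ gc))
    have h2 : HasFDerivAt (fun z => fderiv ℝ ff z v) (0 : ℂ →L[ℝ] ℝ) 0 := by
      have h3 := hasFDerivAt_zero (D0.γ / 2) hγ hamp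
      have h4 := Complex.reCLM.hasFDerivAt.comp (0 : ℂ) h3
      rw [ContinuousLinearMap.comp_zero] at h4
      refine h4.congr_of_eventuallyEq ?_
      filter_upwards [ball_mem_nhds (0 : ℂ) one_pos] with z hz
      have h5 : HasFDerivAt (FF D0) (fderiv ℝ (FF D0) z) z :=
        ((hFF.contDiffAt (isOpen_ball.mem_nhds hz)).differentiableAt (by simp)).hasFDerivAt
      have h6 : fderiv ℝ ff z = Complex.reCLM.comp (fderiv ℝ (FF D0) z) :=
        (Complex.reCLM.hasFDerivAt.comp z h5).fderiv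
      rw [h6]
      change ((fderiv ℝ (FF D0) z) v).re = _
      have h7 := fderiv_flat (D0.γ / 2) hγ (sm_amp D0) (good_amp D0 0) z v
      change ((fderiv ℝ (fun z => E (D0.γ / 2) z * amp D0 z) z) v).re = _
      rw [h7]
      rfl
    have h8 := h1.unique h2
    have h9 := congrArg (fun L => L u) h8
    simpa using h9
  rw [QQ, key, key, key]
  simp

/-- Loewner's conjecture fails for smooth functions (in the form of the frozen statement). -/
theorem loewner_false :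
    ¬ (∀ (f : ℂ → ℝ) (ε : ℝ) (Q : ℂ → ℂ),
      0 < ε →
      ContDiffOn ℝ ∞ f (Metric.ball (0 : ℂ) ε) →
      (∀ z : ℂ, Q z =
          ((iteratedFDeriv ℝ 2 f z ![(1 : ℂ), 1] - iteratedFDeriv ℝ 2 f z ![Complex.I, Complex.I] : ℝ) : ℂ)
            + 2 * ((iteratedFDeriv ℝ 2 f z ![(1 : ℂ), Complex.I] : ℝ) : ℂ) * Complex.I) →
      Q 0 = 0 →
      (∀ z ∈ Metric.ball (0 : ℂ) ε, z ≠ 0 → Q z ≠ 0) →
      ∀ r : ℝ, 0 < r → r < ε →
        ∀ θ : ℝ → ℝ, ContinuousOn θ (Set.Icc 0 (2 * Real.pi)) →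
          (∀ t ∈ Set.Icc 0 (2 * Real.pi),
              Q ((r : ℂ) * Complex.exp ((t : ℂ) * Complex.I))
                = ((‖Q ((r : ℂ) * Complex.exp ((t : ℂ) * Complex.I))‖ : ℝ) : ℂ)
                    * Complex.exp ((θ t : ℂ) * Complex.I)) →
          θ (2 * Real.pi) - θ 0 ≤ 4 * Real.pi) := by
  intro hall
  obtain ⟨s1, hs1, H⟩ := small
  have hε : 0 < Real.exp s1 := Real.exp_pos _
  have hε1 : Real.exp s1 ≤ 1 := Real.exp_le_one_iff.mpr hs1
  have hne : ∀ z ∈ Metric.ball (0 : ℂ) (Real.exp s1), z ≠ 0 → QQ z ≠ 0 := by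
    intro z hz hz0 hq
    rw [mem_ball_zero_iff] at hz
    have hs : Real.log ‖z‖ < s1 := by
      rw [Real.log_lt_iff_lt_exp (norm_pos_iff.mpr hz0)]; exact hz
    have h1 := im_pos_of_small (H (Real.log ‖z‖) (arg z) hs).1
    have h2 := NN_ne h1
    rw [← QQ_pt, exists_pt hz0, hq, mul_zero] at h2
    exact h2 rfl
  -- the radius
  obtain ⟨s, hs⟩ : ∃ s : ℝ, s = s1 - 1 := ⟨_, rfl⟩
  have hlt : s < s1 := by linarith
  obtain ⟨φ, h1, h2, h3⟩ := wind_QQ (s := s) (fun θ => H s θ hlt)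
  have hpt : ∀ t : ℝ, ((Real.exp s : ℝ) : ℂ) * Complex.exp ((t : ℂ) * Complex.I) = pt s t := by
    intro t
    rw [pt, exp_add, Complex.ofReal_exp]
  have hfin := hall ff (Real.exp s1) QQ hε (contDiffOn_ff.mono (ball_subset_ball hε1))
    (fun z => rfl) QQ_zero hne (Real.exp s) (Real.exp_pos _) (Real.exp_lt_exp.mpr hlt) φ
    h1.continuousOn (fun t _ => by rw [hpt]; exact h2 t)
  rw [h3] at hfin
  have := Real.pi_pos
  push_cast at hfin
  linarith

end Pool.Agent.H99.Loewner
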